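import Mathlib

open Module

universe u

namespace Pool.Agent.Helper65.AbChain

/-- `X` is the union of an increasing sequence of proper subgroups. -/
def HasChain (X : Type*) [AddCommGroup X] : Prop :=
  ∃ Y : ℕ → AddSubgroup X, Monotone Y ∧ (∀ n, Y n ≠ ⊤) ∧ ∀ x, ∃ n, x ∈ Y n

lemma hasChain_of_basis {X k V ι : Type*} [AddCommGroup X] [Field k] [AddCommGroup V] [Module k V]
    (b : Basis ι k V) [Infinite ι] (f : X →+ V) (hf : ∀ i, ∃ x, b.repr (f x) i ≠ 0) :
    HasChain X := by
  classical
  let e : ℕ ↪ ι := Infinite.natEmbedding ι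
  let Y : ℕ → AddSubgroup X := fun n =>
    { carrier := {x | ∀ m, n ≤ m → b.repr (f x) (e m) = 0}
      zero_mem' := fun m _ => by simp
      add_mem' := fun {x y} hx hy m hm => by
        rw [map_add, map_add, Finsupp.add_apply, hx m hm, hy m hm, add_zero]
      neg_mem' := fun {x} hx m hm => by
        rw [map_neg, map_neg, Finsupp.neg_apply, hx m hm, neg_zero] }
  refine ⟨Y, ?_, ?_, ?_⟩
  · intro n n' hnn' x hx m hm
    exact hx m (hnn'.trans hm)
  · intro n hn
    obtain ⟨x, hx⟩ := hf (e n)
    have h1 : x ∈ Y n := by rw [hn]; trivial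
    exact hx (h1 n le_rfl)
  · intro x
    have hfin : ((e ⁻¹' ((b.repr (f x)).support : Set ι))).Finite :=
      (Finset.finite_toSet _).preimage e.injective.injOn
    obtain ⟨N, hN⟩ := hfin.bddAbove
    refine ⟨N + 1, fun m hm => ?_⟩
    by_contra hne
    have h1 : m ∈ (e ⁻¹' ((b.repr (f x)).support : Set ι)) := by
      simpa using hne
    exact absurd (hN h1) (by omega)

lemma exists_fg_sup {X : Type*} [AddCommGroup X]
    (h : ∀ p : ℕ, p.Prime → ∃ F : Submodule ℤ X, F.FG ∧ ∀ x : X, ∃ y ∈ F, ∃ z, x = y + p • z) :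
    ∀ n : ℕ, n ≠ 0 → ∃ F : Submodule ℤ X, F.FG ∧ ∀ x : X, ∃ y ∈ F, ∃ z, x = y + n • z := by
  intro n
  induction n using induction_on_primes with
  | zero => exact fun h => absurd rfl h
  | one => exact fun _ => ⟨⊥, Submodule.fg_bot, fun x => ⟨0, Submodule.zero_mem _, x, by simp⟩⟩
  | prime_mul p a hp ih =>
    intro hpa
    have ha : a ≠ 0 := fun h0 => hpa (by simp [h0])
    obtain ⟨F, hF, hF'⟩ := ih ha
    obtain ⟨F₂, hF₂, hF₂'⟩ := h p hp
    refine ⟨F ⊔ F₂, hF.sup hF₂, fun x => ?_⟩
    obtain ⟨y, hy, z, rfl⟩ := hF' x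
    obtain ⟨y₂, hy₂, z₂, rfl⟩ := hF₂' z
    refine ⟨y + a • y₂, Submodule.add_mem_sup hy (nsmul_mem hy₂ a), z₂, ?_⟩
    rw [smul_add, add_assoc, mul_comm, mul_smul]

open TensorProduct in
/-- The rational hull of an abelian group. -/
lemma exists_rational_hull (X : Type u) [AddCommGroup X] :
    ∃ (V : Type u) (_ : AddCommGroup V) (_ : Module ℚ V) (f : X →+ V),
      (∀ x, f x = 0 → ∃ n : ℤ, n ≠ 0 ∧ n • x = 0) ∧
      (∀ v, ∃ x, ∃ n : ℤ, n ≠ 0 ∧ (n : ℚ) • v = f x) := by
  refine ⟨ℚ ⊗[ℤ] X, inferInstance, inferInstance, (TensorProduct.mk ℤ ℚ X 1).toAddMonoidHom, ?_, ?_⟩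
  · intro x hx
    obtain ⟨c, hc⟩ := (IsLocalizedModule.eq_zero_iff (nonZeroDivisors ℤ) (TensorProduct.mk ℤ ℚ X 1)).mp hx
    exact ⟨c, nonZeroDivisors.coe_ne_zero c, hc⟩
  · intro v
    obtain ⟨⟨x, s⟩, hx⟩ := IsLocalizedModule.surj (nonZeroDivisors ℤ) (TensorProduct.mk ℤ ℚ X 1) v
    refine ⟨x, s, nonZeroDivisors.coe_ne_zero s, ?_⟩
    rw [Int.cast_smul_eq_zsmul]
    have h1 := int_smul_eq_zsmul (M := ℚ ⊗[ℤ] X) TensorProduct.leftModule (s : ℤ) v
    exact h1.symm.trans hx

theorem hasChain_of_not_fg {X : Type*} [AddCommGroup X] (hX : ¬ Module.Finite ℤ X) : HasChain X := by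
  classical
  by_cases h : ∀ p : ℕ, p.Prime → ∃ F : Submodule ℤ X, F.FG ∧ ∀ x : X, ∃ y ∈ F, ∃ z, x = y + p • z
  · -- rational part
    obtain ⟨V, _, _, f, hker, hfx⟩ := exists_rational_hull X
    let b := Basis.ofVectorSpace ℚ V
    by_cases hι : Infinite (Basis.ofVectorSpaceIndex ℚ V)
    · refine hasChain_of_basis b f fun i => ?_
      obtain ⟨x, s, hs, hx⟩ := hfx (b i)
      refine ⟨x, ?_⟩
      rw [← hx, map_smul]
      simpa using hs
    · have hfin : Finite (Basis.ofVectorSpaceIndex ℚ V) := not_infinite_iff_finite.mp hι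
      have : Fintype (Basis.ofVectorSpaceIndex ℚ V) := Fintype.ofFinite _
      choose x s hs hx using fun i => hfx (b i)
      let Y₀ : Submodule ℤ X := Submodule.span ℤ (Set.range x)
      have hY₀ : Y₀.FG := Submodule.fg_span (Set.finite_range x)
      have htors : ∀ y : X, ∃ n : ℕ, n ≠ 0 ∧ n • y ∈ Y₀ := by
        intro y
        obtain ⟨N, hN⟩ := IsLocalization.exist_integer_multiples_of_finite (nonZeroDivisors ℤ)
          (S := ℚ) (fun i => b.repr (f y) i / (s i : ℚ))
        choose n hn using hN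
        have h1 : f ((N : ℤ) • y - ∑ i, n i • x i) = 0 := by
          rw [map_sub, map_zsmul, map_sum, sub_eq_zero, ← Int.cast_smul_eq_zsmul ℚ]
          conv_lhs => rw [← b.sum_repr (f y), Finset.smul_sum]
          refine Finset.sum_congr rfl fun i _ => ?_
          have h3 : (s i : ℚ) ≠ 0 := by simpa using hs i
          have h4 : (n i : ℚ) = (N : ℤ) * (b.repr (f y) i / (s i : ℚ)) := by
            have := hn i
            simpa using this
          rw [map_zsmul, ← hx i, ← Int.cast_smul_eq_zsmul ℚ (n i), h4, smul_smul, smul_smul]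
          congr 1
          field_simp
        obtain ⟨m, hm, hm'⟩ := hker _ h1
        refine ⟨(m * (N : ℤ)).natAbs, Int.natAbs_ne_zero.mpr (mul_ne_zero hm
          (nonZeroDivisors.coe_ne_zero N)), ?_⟩
        rw [smul_sub, sub_eq_zero] at hm'
        have h4 : (m * (N : ℤ)) • y ∈ Y₀ := by
          rw [mul_smul, hm']
          exact Submodule.smul_mem _ _ (Submodule.sum_mem _ fun i _ =>
            Submodule.smul_mem _ _ (Submodule.subset_span ⟨i, rfl⟩))
        rcases Int.natAbs_eq (m * (N : ℤ)) with h5 | h5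
        · rw [h5, natCast_zsmul] at h4
          exact h4
        · rw [h5, neg_smul, natCast_zsmul] at h4
          exact (Submodule.neg_mem_iff _).mp h4
      let Y : ℕ → AddSubgroup X := fun n =>
        { carrier := {y | n.factorial • y ∈ Y₀}
          zero_mem' := by simp
          add_mem' := fun {a b} ha hb => by
            change n.factorial • (a + b) ∈ Y₀
            rw [smul_add]
            exact Y₀.add_mem ha hb
          neg_mem' := fun {a} ha => by
            change n.factorial • (-a) ∈ Y₀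
            rw [smul_neg]
            exact Y₀.neg_mem ha }
      refine ⟨Y, ?_, ?_, ?_⟩
      · intro m n hmn y hy
        obtain ⟨c, hc⟩ := Nat.factorial_dvd_factorial hmn
        change n.factorial • y ∈ Y₀
        rw [hc, mul_comm, mul_smul]
        have hy' : m.factorial • y ∈ Y₀ := hy
        exact nsmul_mem hy' c
      · intro n hn
        apply hX
        obtain ⟨F, hF, hF'⟩ := exists_fg_sup h n.factorial (Nat.factorial_ne_zero n)
        have htop : F ⊔ Y₀ = ⊤ := by
          rw [eq_top_iff]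
          intro y _
          obtain ⟨a, ha, z, rfl⟩ := hF' y
          have hz : z ∈ Y n := by rw [hn]; trivial
          exact Submodule.add_mem_sup ha hz
        exact ⟨htop ▸ hF.sup hY₀⟩
      · intro y
        obtain ⟨n, hn, hy⟩ := htors y
        refine ⟨n, ?_⟩
        obtain ⟨c, hc⟩ := Nat.dvd_factorial (Nat.pos_of_ne_zero hn) le_rfl
        change n.factorial • y ∈ Y₀
        rw [hc, mul_comm, mul_smul]
        exact nsmul_mem hy c
  · push Not at h
    obtain ⟨p, hp, hF⟩ := h
    have : Fact p.Prime := ⟨hp⟩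
    let V := ModN X p
    let f : X →+ V := ModN.mkQ p
    let b := Basis.ofVectorSpace (ZMod p) V
    have hsurj : Function.Surjective f := Submodule.mkQ_surjective _
    have hι : Infinite (Basis.ofVectorSpaceIndex (ZMod p) V) := by
      by_contra hι
      have hfin : Finite (Basis.ofVectorSpaceIndex (ZMod p) V) := not_infinite_iff_finite.mp hι
      have : Module.Finite (ZMod p) V := Module.Finite.of_basis b
      have hVfin : Finite V := Module.finite_of_finite (ZMod p)
      obtain ⟨x, hx⟩ := hF (Submodule.span ℤ (Set.range (fun v : V => Function.surjInv hsurj v)))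
        (Submodule.fg_span (Set.finite_range _))
      have h1 : f (x - Function.surjInv hsurj (f x)) = 0 := by
        rw [map_sub, Function.surjInv_eq hsurj, sub_self]
      have h2 : x - Function.surjInv hsurj (f x) ∈ LinearMap.range (LinearMap.lsmul ℤ X p) :=
        (Submodule.Quotient.mk_eq_zero _).mp h1
      obtain ⟨z, hz⟩ := h2
      refine hx _ (Submodule.subset_span ⟨f x, rfl⟩) z ?_
      have h3 : p • z = x - Function.surjInv hsurj (f x) := by
        rw [← hz]
        simp
      rw [h3]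
      abel
    refine hasChain_of_basis b f fun i => ?_
    obtain ⟨x, hx⟩ := hsurj (b i)
    refine ⟨x, ?_⟩
    rw [hx]
    simp

end Pool.Agent.Helper65.AbChain
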