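import Mathlib

open MeasureTheory Topology Filter Set
open scoped ComplexConjugate InnerProductSpace

namespace Pool.Agent.Helper65.PW

section ConvOp

variable {A : Type*} [CommGroup A] [TopologicalSpace A] [IsTopologicalGroup A] [CompactSpace A]
  [MeasurableSpace A] [BorelSpace A]
variable (μ : Measure A) [IsFiniteMeasure μ]

/-- The continuous family `x ↦ (y ↦ conj (f (x * y⁻¹)))` in `L²`. -/
noncomputable def kap (f : C(A, ℂ)) : C(A, Lp ℂ 2 μ) where
  toFun x := ContinuousMap.toLp 2 μ ℂ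
    ((ContinuousMap.curry ⟨fun p : A × A => conj (f (p.1 * p.2⁻¹)), by fun_prop⟩ : C(A, C(A, ℂ))) x)
  continuous_toFun := (ContinuousMap.toLp 2 μ ℂ).continuous.comp (ContinuousMap.continuous _)

/-- Convolution by `f` as an operator from `L²` to continuous functions. -/
noncomputable def convC (f : C(A, ℂ)) : Lp ℂ 2 μ →L[ℂ] C(A, ℂ) :=
  LinearMap.mkContinuous
    { toFun := fun g => ⟨fun x => inner ℂ (kap μ f x) g, by fun_prop⟩
      map_add' := fun g h => by
        ext x
        simp [inner_add_right]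
      map_smul' := fun c g => by
        ext x
        simp [inner_smul_right] }
    ‖kap μ f‖ (fun g => by
      refine (ContinuousMap.norm_le _ (by positivity)).mpr fun x => ?_
      calc ‖inner ℂ (kap μ f x) g‖ ≤ ‖kap μ f x‖ * ‖g‖ := norm_inner_le_norm _ _
        _ ≤ ‖kap μ f‖ * ‖g‖ := by
            gcongr
            exact ContinuousMap.norm_coe_le_norm _ x)

lemma convC_apply (f : C(A, ℂ)) (g : Lp ℂ 2 μ) (x : A) :
    convC μ f g x = inner ℂ (kap μ f x) g := rfl

lemma convC_toLp (f g : C(A, ℂ)) (x : A) :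
    convC μ f (ContinuousMap.toLp 2 μ ℂ g) x = ∫ y, f (x * y⁻¹) * g y ∂μ := by
  rw [convC_apply]
  change inner ℂ (ContinuousMap.toLp 2 μ ℂ _) (ContinuousMap.toLp 2 μ ℂ g) = _
  rw [ContinuousMap.inner_toLp]
  congr 1
  ext y
  simp [mul_comm]

/-- Convolution by `f` as an operator on `L²`. -/
noncomputable def convL (f : C(A, ℂ)) : Lp ℂ 2 μ →L[ℂ] Lp ℂ 2 μ :=
  (ContinuousMap.toLp 2 μ ℂ) ∘L (convC μ f)

lemma isCompactOperator_convC (f : C(A, ℂ)) : IsCompactOperator (convC μ f) := by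
  have hcl := isClosed_setOfPred_isCompactOperator (σ₁₂ := RingHom.id ℂ) (M₁ := Lp ℂ 2 μ)
    (M₂ := C(A, ℂ))
  suffices h : convC μ f ∈ closure {g : Lp ℂ 2 μ →L[ℂ] C(A, ℂ) | IsCompactOperator g} by
    rwa [hcl.closure_eq] at h
  rw [Metric.mem_closure_iff]
  intro ε hε
  have hcomp : IsCompact (range (kap μ f)) := isCompact_range (kap μ f).continuous
  obtain ⟨t, htf, hcov⟩ := Metric.totallyBounded_iff.mp hcomp.totallyBounded (ε / 2) (by positivity)
  let W : Submodule ℂ (Lp ℂ 2 μ) := Submodule.span ℂ t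
  have : FiniteDimensional ℂ W := FiniteDimensional.span_of_finite ℂ htf
  let P : Lp ℂ 2 μ →L[ℂ] Lp ℂ 2 μ := W.starProjection
  have hP : IsCompactOperator P := by
    have h1 : IsCompactOperator (W.orthogonalProjectionOnto) :=
      isCompactOperator_of_locallyCompactSpace_dom _
    exact h1.clm_comp W.subtypeL
  refine ⟨(convC μ f) ∘L P, hP.clm_comp (convC μ f), ?_⟩
  rw [dist_eq_norm]
  refine lt_of_le_of_lt (ContinuousLinearMap.opNorm_le_bound _ (by positivity : (0:ℝ) ≤ ε / 2) fun g => ?_)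
    (by linarith)
  refine (ContinuousMap.norm_le _ (by positivity)).mpr fun x => ?_
  have hx : kap μ f x ∈ ⋃ y ∈ t, Metric.ball y (ε / 2) := hcov ⟨x, rfl⟩
  simp only [mem_iUnion, Metric.mem_ball, exists_prop] at hx
  obtain ⟨e, het, hxe⟩ := hx
  have h2 : ((convC μ f - convC μ f ∘L P) g) x = inner ℂ (kap μ f x - P (kap μ f x)) g := by
    change inner ℂ (kap μ f x) g - inner ℂ (kap μ f x) (P g) = _
    rw [inner_sub_left]
    congr 1
    exact (W.starProjection_isSymmetric _ _).symm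
  rw [h2]
  have h3 : ‖kap μ f x - P (kap μ f x)‖ ≤ ‖kap μ f x - e‖ := by
    rw [W.starProjection_minimal]
    exact ciInf_le ⟨0, by rintro _ ⟨y, rfl⟩; exact norm_nonneg _⟩ (⟨e, Submodule.subset_span het⟩ : W)
  calc ‖inner ℂ (kap μ f x - P (kap μ f x)) g‖ ≤ ‖kap μ f x - P (kap μ f x)‖ * ‖g‖ :=
        norm_inner_le_norm _ _
    _ ≤ (ε / 2) * ‖g‖ := by
        gcongr
        rw [dist_eq_norm] at hxe
        exact h3.trans hxe.le

lemma isCompactOperator_convL (f : C(A, ℂ)) : IsCompactOperator (convL μ f) :=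
  (isCompactOperator_convC μ f).clm_comp (ContinuousMap.toLp 2 μ ℂ : C(A, ℂ) →L[ℂ] Lp ℂ 2 μ)

lemma isSymmetric_convL [μ.WeaklyRegular] (f : C(A, ℂ)) (hf : ∀ x, f x⁻¹ = conj (f x)) :
    (convL μ f : Lp ℂ 2 μ →ₗ[ℂ] Lp ℂ 2 μ).IsSymmetric := by
  have key : ∀ g h : C(A, ℂ), inner ℂ (convL μ f (ContinuousMap.toLp 2 μ ℂ g)) (ContinuousMap.toLp 2 μ ℂ h)
      = inner ℂ (ContinuousMap.toLp 2 μ ℂ g) (convL μ f (ContinuousMap.toLp 2 μ ℂ h)) := by
    intro g h
    simp only [convL, ContinuousLinearMap.comp_apply]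
    rw [ContinuousMap.inner_toLp, ContinuousMap.inner_toLp]
    simp only [convC_toLp]
    have h1 : ∀ x, h x * conj (∫ y, f (x * y⁻¹) * g y ∂μ) = ∫ y, h x * (f (y * x⁻¹) * conj (g y)) ∂μ := by
      intro x
      rw [← integral_conj, ← integral_const_mul]
      congr 1
      ext y
      rw [map_mul, ← hf, mul_inv, inv_inv, mul_comm x⁻¹ y]
    have h2 : ∀ y, (∫ x, f (y * x⁻¹) * h x ∂μ) * conj (g y) = ∫ x, h x * (f (y * x⁻¹) * conj (g y)) ∂μ := by
      intro y
      rw [← integral_mul_const]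
      congr 1
      ext x
      ring
    simp only [h1, h2]
    refine integral_integral_swap_of_hasCompactSupport (f := fun x y => h x * (f (y * x⁻¹) * conj (g y))) ?_ ?_
    · simp only [Function.uncurry_def]
      fun_prop
    · exact HasCompactSupport.of_compactSpace _
  have hd : DenseRange (ContinuousMap.toLp 2 μ ℂ : C(A, ℂ) →L[ℂ] Lp ℂ 2 μ) :=
    ContinuousMap.toLp_denseRange ℂ μ ℂ (by simp)
  intro g h
  refine hd.induction_on₂ (p := fun g h => inner ℂ (convL μ f g) h = inner ℂ g (convL μ f h)) ?_ key g h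
  exact isClosed_eq (by fun_prop) (by fun_prop)

end ConvOp

lemma exists_common_eigenvector {V ι : Type*} [AddCommGroup V] [Module ℂ V] (R : ι → V →ₗ[ℂ] V)
    (hcomm : ∀ a b v, R a (R b v) = R b (R a v)) :
    ∀ (n : ℕ) (W : Submodule ℂ V) (_ : FiniteDimensional ℂ W) (_ : Module.finrank ℂ W = n) (_ : W ≠ ⊥)
      (_ : ∀ a, ∀ w ∈ W, R a w ∈ W), ∃ w ∈ W, w ≠ 0 ∧ ∀ a, ∃ c : ℂ, R a w = c • w := by
  intro n
  induction n using Nat.strong_induction_on with
  | _ n ih =>
    intro W hfd hn hW hinv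
    by_cases hall : ∀ a, ∃ c : ℂ, ∀ w ∈ W, R a w = c • w
    · obtain ⟨w, hw, hw0⟩ := Submodule.exists_mem_ne_zero_of_ne_bot hW
      exact ⟨w, hw, hw0, fun a => (hall a).imp fun c hc => hc w hw⟩
    · push Not at hall
      obtain ⟨a, ha⟩ := hall
      have hnt : Nontrivial W := Submodule.nontrivial_iff_ne_bot.mpr hW
      let Ra : W →ₗ[ℂ] W := (R a).restrict (hinv a)
      obtain ⟨c, hc⟩ := Module.End.exists_eigenvalue Ra
      obtain ⟨v, hv⟩ := hc.exists_hasEigenvector
      let U : Submodule ℂ V := W ⊓ LinearMap.ker (R a - c • LinearMap.id)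
      have hUmem : ∀ u, u ∈ U ↔ u ∈ W ∧ R a u = c • u := by
        intro u
        simp only [U, Submodule.mem_inf, LinearMap.mem_ker, LinearMap.sub_apply,
          LinearMap.smul_apply, LinearMap.id_apply, sub_eq_zero]
      have hU : U ≠ ⊥ := by
        intro hbot
        have h1 : (v : V) ∈ U := by
          rw [hUmem]
          refine ⟨v.2, ?_⟩
          have := hv.apply_eq_smul
          exact congrArg Subtype.val this
        rw [hbot, Submodule.mem_bot] at h1
        exact hv.2 (Subtype.ext h1)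
      have hlt : U < W := by
        refine lt_of_le_of_ne inf_le_left ?_
        intro heq
        obtain ⟨w, hw, hne⟩ := ha c
        rw [← heq, hUmem] at hw
        exact hne hw.2
      have hfr : Module.finrank ℂ U < n := by
        rw [← hn]
        exact Submodule.finrank_lt_finrank_of_lt hlt
      have hfdU : FiniteDimensional ℂ U := Submodule.finiteDimensional_of_le hlt.le
      obtain ⟨w, hw, hw0, hwc⟩ := ih _ hfr U hfdU rfl hU (by
        intro b w hw
        rw [hUmem] at hw ⊢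
        refine ⟨hinv b w hw.1, ?_⟩
        rw [hcomm, hw.2, map_smul])
      exact ⟨w, hlt.le hw, hw0, hwc⟩

section Char

variable {A : Type*} [CommGroup A] [TopologicalSpace A] [IsTopologicalGroup A] [CompactSpace A]
  [MeasurableSpace A] [BorelSpace A]
variable (μ : Measure A) [μ.IsHaarMeasure]

/-- Convolution by `f` on continuous functions. -/
noncomputable def convCC (f : C(A, ℂ)) : C(A, ℂ) →L[ℂ] C(A, ℂ) :=
  (convC μ f) ∘L (ContinuousMap.toLp 2 μ ℂ)

lemma convCC_apply (f g : C(A, ℂ)) (x : A) :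
    convCC μ f g x = ∫ y, f (x * y⁻¹) * g y ∂μ := convC_toLp μ f g x

/-- Translation of continuous functions. -/
noncomputable def trans (a : A) : C(A, ℂ) →ₗ[ℂ] C(A, ℂ) where
  toFun w := w.comp ⟨fun x => x * a, by fun_prop⟩
  map_add' := fun _ _ => rfl
  map_smul' := fun _ _ => rfl

omit [CompactSpace A] [MeasurableSpace A] [BorelSpace A] in
lemma trans_apply (a : A) (w : C(A, ℂ)) (x : A) : trans a w x = w (x * a) := rfl

lemma convCC_trans (f w : C(A, ℂ)) (a : A) : convCC μ f (trans a w) = trans a (convCC μ f w) := by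
  ext x
  rw [trans_apply, convCC_apply, convCC_apply]
  rw [← integral_mul_right_eq_self (fun y => f (x * a * y⁻¹) * w y) a]
  congr 1
  ext y
  rw [trans_apply, mul_inv, mul_mul_mul_comm, mul_inv_cancel, mul_one]

theorem exists_char_of_ne_zero [μ.WeaklyRegular] (f : C(A, ℂ)) (hf : ∀ x, f x⁻¹ = conj (f x))
    (hf0 : f ≠ 0) : ∃ χ : A →ₜ* Circle, ∫ y, conj (f y) * (χ y : ℂ) ∂μ ≠ 0 := by
  have hinj := ContinuousMap.toLp_injective (p := 2) (E := ℂ) (𝕜 := ℂ) μ
  -- the operator is nonzero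
  have hT : convL μ f ≠ 0 := by
    intro h0
    let g : C(A, ℂ) := ⟨fun y => conj (f y⁻¹), by fun_prop⟩
    have h1 : convC μ f (ContinuousMap.toLp 2 μ ℂ g) = 0 := by
      apply hinj
      rw [map_zero]
      have := congrArg (fun T : Lp ℂ 2 μ →L[ℂ] Lp ℂ 2 μ => T (ContinuousMap.toLp 2 μ ℂ g)) h0
      exact this
    have h2 := congrArg (fun w : C(A, ℂ) => w 1) h1
    simp only [convC_toLp, ContinuousMap.zero_apply, one_mul] at h2
    have h3 : ∀ y, f y⁻¹ * g y = ((‖f y⁻¹‖ ^ 2 : ℝ) : ℂ) := by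
      intro y
      change f y⁻¹ * conj (f y⁻¹) = _
      rw [Complex.mul_conj, Complex.normSq_eq_norm_sq]
    simp only [h3] at h2
    rw [integral_complex_ofReal] at h2
    have h4 : ∫ y, ‖f y⁻¹‖ ^ 2 ∂μ = 0 := by exact_mod_cast h2
    have h5 : Continuous fun y => ‖f y⁻¹‖ ^ 2 := by fun_prop
    apply hf0
    ext x
    by_contra hx
    have h6 : (fun y => ‖f y⁻¹‖ ^ 2) x⁻¹ ≠ 0 := by simpa using hx
    exact absurd h4 (ne_of_gt (h5.integral_pos_of_hasCompactSupport_nonneg_nonzero (μ := μ)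
      (HasCompactSupport.of_compactSpace _) (fun y => by positivity) h6))
  have hcomp := isCompactOperator_convL μ f
  have hsymm := isSymmetric_convL μ f hf
  have h1 := (ContinuousLinearMap.eq_zero_of_forall_hasEigenvalue_eq_zero hcomp hsymm).not.mpr hT
  push Not at h1
  obtain ⟨lam, hlam, hlam0⟩ := h1
  have hfd := ContinuousLinearMap.finite_dimensional_eigenspace hcomp lam hlam0
  -- the space of continuous eigenfunctions
  let W : Submodule ℂ C(A, ℂ) := LinearMap.ker ((convCC μ f : C(A, ℂ) →ₗ[ℂ] C(A, ℂ)) - lam • LinearMap.id)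
  have hWmem : ∀ w, w ∈ W ↔ convCC μ f w = lam • w := by
    intro w
    simp only [W, LinearMap.mem_ker, LinearMap.sub_apply, LinearMap.smul_apply, LinearMap.id_apply,
      sub_eq_zero, ContinuousLinearMap.coe_coe]
  have hWmap : ∀ w ∈ W, ContinuousMap.toLp 2 μ ℂ w ∈ Module.End.eigenspace
      ((convL μ f : Lp ℂ 2 μ →L[ℂ] Lp ℂ 2 μ).toLinearMap) lam := by
    intro w hw
    rw [Module.End.mem_eigenspace_iff]
    have h2 := congrArg (ContinuousMap.toLp 2 μ ℂ : C(A, ℂ) →L[ℂ] Lp ℂ 2 μ) ((hWmem w).mp hw)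
    rw [map_smul] at h2
    exact h2
  have hWfd : FiniteDimensional ℂ W := by
    let Φ : W →ₗ[ℂ] Module.End.eigenspace ((convL μ f : Lp ℂ 2 μ →L[ℂ] Lp ℂ 2 μ).toLinearMap) lam :=
      LinearMap.restrict (ContinuousMap.toLp 2 μ ℂ : C(A, ℂ) →L[ℂ] Lp ℂ 2 μ).toLinearMap hWmap
    refine FiniteDimensional.of_injective Φ ?_
    intro x y hxy
    exact Subtype.ext (hinj (congrArg Subtype.val hxy))
  have hWne : W ≠ ⊥ := by
    obtain ⟨v, hv⟩ := hlam.exists_hasEigenvector
    have hv1 : convL μ f v = lam • v := hv.apply_eq_smul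
    have hw : (convC μ f v) ∈ W := by
      rw [hWmem]
      have h2 : convCC μ f (convC μ f v) = convC μ f (convL μ f v) := rfl
      rw [h2, hv1, map_smul]
    intro hbot
    rw [hbot, Submodule.mem_bot] at hw
    have h3 : convL μ f v = 0 := by
      have h4 : convL μ f v = ContinuousMap.toLp 2 μ ℂ (convC μ f v) := rfl
      rw [h4, hw, map_zero]
    rw [hv1] at h3
    exact hv.2 ((smul_eq_zero.mp h3).resolve_left hlam0)
  obtain ⟨w, hwW, hw0, hwc⟩ := exists_common_eigenvector (fun a : A => trans a)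
    (fun a b v => by
      ext x
      simp only [trans_apply, mul_assoc]
      rw [mul_comm a b]) _ W hWfd rfl hWne (by
      intro a w hw
      rw [hWmem] at hw ⊢
      rw [convCC_trans, hw, map_smul])
  choose c hc using hwc
  have hc1 : ∀ a x, w (x * a) = c a * w x := by
    intro a x
    have := congrArg (fun u : C(A, ℂ) => u x) (hc a)
    exact this
  have hw1 : w 1 ≠ 0 := by
    intro h
    apply hw0
    ext x
    have := hc1 x 1
    rw [one_mul, h, mul_zero] at this
    simpa using this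
  have hca : ∀ a, c a = w a / w 1 := by
    intro a
    have := hc1 a 1
    rw [one_mul] at this
    rw [this, mul_div_assoc, div_self hw1, mul_one]
  have hcmul : ∀ a b, c (a * b) = c a * c b := by
    intro a b
    have h2 := hc1 (a * b) 1
    have h3 := hc1 b a
    have h4 := hc1 a 1
    rw [one_mul] at h2 h4
    have : c (a * b) * w 1 = (c a * c b) * w 1 := by
      rw [← h2, h3, h4]
      ring
    exact mul_right_cancel₀ hw1 this
  have hc1' : c 1 = 1 := by rw [hca, div_self hw1]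
  have hcpow : ∀ a (n : ℕ), c (a ^ n) = c a ^ n := by
    intro a n
    induction n with
    | zero => simp [hc1']
    | succ n ih => rw [pow_succ, hcmul, ih, pow_succ]
  have hcbd : ∀ a, ‖c a‖ ≤ ‖w‖ / ‖w 1‖ := by
    intro a
    rw [hca, norm_div]
    gcongr
    exact ContinuousMap.norm_coe_le_norm w a
  have hcle : ∀ a, ‖c a‖ ≤ 1 := by
    intro a
    by_contra hlt
    push Not at hlt
    obtain ⟨n, hn⟩ := pow_unbounded_of_one_lt (‖w‖ / ‖w 1‖) hlt
    have h2 := hcbd (a ^ n)
    rw [hcpow, norm_pow] at h2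
    exact absurd h2 (not_le.mpr hn)
  have hcnorm : ∀ a, ‖c a‖ = 1 := by
    intro a
    refine le_antisymm (hcle a) ?_
    have h2 : c a * c a⁻¹ = 1 := by rw [← hcmul, mul_inv_cancel, hc1']
    have h3 : ‖c a‖ * ‖c a⁻¹‖ = 1 := by rw [← norm_mul, h2, norm_one]
    have h4 := hcle a⁻¹
    have h5 := norm_nonneg (c a)
    nlinarith [norm_nonneg (c a⁻¹)]
  have hccont : Continuous c := by
    have : c = fun a => w a / w 1 := funext hca
    rw [this]
    fun_prop
  let χ : A →ₜ* Circle :=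
    { toFun := fun a => ⟨c a, by simp [Submonoid.unitSphere, hcnorm a]⟩
      map_one' := by
        ext
        exact hc1'
      map_mul' := fun a b => by
        ext
        exact hcmul a b
      continuous_toFun := by
        exact Continuous.subtype_mk hccont _ }
  refine ⟨χ, ?_⟩
  have hχ : ∀ a, ((χ a : Circle) : ℂ) = c a := fun a => rfl
  have h2 := congrArg (fun u : C(A, ℂ) => u 1) ((hWmem w).mp hwW)
  simp only [convCC_apply, ContinuousMap.smul_apply, one_mul, smul_eq_mul] at h2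
  have h3 : ∀ y, f y⁻¹ * w y = (conj (f y) * (χ y : ℂ)) * w 1 := by
    intro y
    rw [hχ, hf, hca, mul_assoc, div_mul_cancel₀ _ hw1]
  simp only [h3] at h2
  rw [integral_mul_const] at h2
  intro h4
  rw [h4, zero_mul] at h2
  exact (mul_ne_zero hlam0 hw1) h2.symm

end Char

section Main

variable {A : Type*} [CommGroup A] [TopologicalSpace A] [IsTopologicalGroup A] [CompactSpace A]
  [T2Space A]

/-- **Peter–Weyl for compact abelian groups**: characters separate points. -/
theorem exists_char_ne_one {a : A} (ha : a ≠ 1) : ∃ χ : A →ₜ* Circle, χ a ≠ 1 := by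
  borelize A
  let μ : Measure A := Measure.haar
  have hdisj : Disjoint ({a, a⁻¹} : Set A) {1} := by
    rw [Set.disjoint_singleton_right]
    simp only [mem_insert_iff, mem_singleton_iff, not_or]
    exact ⟨fun h => ha h.symm, fun h => ha (by rw [← inv_inv a, ← h, inv_one])⟩
  obtain ⟨v, hv0, hv1, -⟩ := exists_continuous_zero_one_of_isClosed
    ((Set.toFinite ({a, a⁻¹} : Set A)).isClosed) (isClosed_singleton (x := (1:A))) hdisj
  let u : A → ℝ := fun x => v x * v x⁻¹
  have hu : Continuous u := by fun_prop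
  have husymm : ∀ x, u x⁻¹ = u x := fun x => by simp only [u, inv_inv, mul_comm]
  have hva : v a = 0 := hv0 (by simp)
  have hv1' : v 1 = 1 := hv1 (by simp)
  have hua : u a = 0 := by simp only [u, hva, zero_mul]
  have hu1 : u 1 = 1 := by simp only [u, inv_one, hv1', mul_one]
  let f : C(A, ℂ) := ⟨fun x => ((2 * u x - u (a⁻¹ * x) - u (a * x) : ℝ) : ℂ), by fun_prop⟩
  have hfapply : ∀ x, f x = ((2 * u x - u (a⁻¹ * x) - u (a * x) : ℝ) : ℂ) := fun x => rfl
  have hf : ∀ x, f x⁻¹ = conj (f x) := by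
    intro x
    rw [hfapply, hfapply, Complex.conj_ofReal]
    congr 1
    have h1 : u (a⁻¹ * x⁻¹) = u (a * x) := by rw [← husymm (a * x), mul_inv]
    have h2 : u (a * x⁻¹) = u (a⁻¹ * x) := by
      rw [← husymm (a⁻¹ * x), mul_inv, inv_inv]
    rw [husymm, h1, h2]
    ring
  have hf0 : f ≠ 0 := by
    intro h
    have h1 := congrArg (fun w : C(A, ℂ) => w 1) h
    simp only [ContinuousMap.zero_apply] at h1
    rw [hfapply, mul_one, mul_one, husymm, hua, hu1] at h1
    norm_num at h1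
  obtain ⟨χ, hχ⟩ := exists_char_of_ne_zero μ f hf hf0
  refine ⟨χ, fun hχa => hχ ?_⟩
  let F : A → ℂ := fun y => (u y : ℂ) * (χ y : ℂ)
  have hF : Continuous F := by
    have : Continuous fun y => ((χ y : Circle) : ℂ) := continuous_subtype_val.comp χ.continuous_toFun
    fun_prop
  have hχinv : χ a⁻¹ = 1 := by rw [map_inv, hχa, inv_one]
  have h1 : ∀ y, conj (f y) * (χ y : ℂ) = 2 * F y - F (a⁻¹ * y) - F (a * y) := by
    intro y
    simp only [F]
    rw [hfapply, Complex.conj_ofReal, map_mul, map_mul, hχa, hχinv, one_mul]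
    push_cast
    ring
  have hint : ∀ g : A → ℂ, Continuous g → Integrable g μ := fun g hg =>
    hg.integrable_of_hasCompactSupport (HasCompactSupport.of_compactSpace _)
  simp only [h1]
  have h2 : ∫ y, (2 * F y - F (a⁻¹ * y) - F (a * y)) ∂μ =
      ∫ y, (2 * F y - F (a⁻¹ * y)) ∂μ - ∫ y, F (a * y) ∂μ :=
    integral_sub (hint _ (by fun_prop)) (hint _ (by fun_prop))
  have h3 : ∫ y, (2 * F y - F (a⁻¹ * y)) ∂μ = ∫ y, 2 * F y ∂μ - ∫ y, F (a⁻¹ * y) ∂μ :=
    integral_sub (hint _ (by fun_prop)) (hint _ (by fun_prop))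
  rw [h2, h3, integral_mul_left_eq_self, integral_mul_left_eq_self, integral_const_mul]
  ring

/-- **Annihilators**: a proper subgroup of the dual has a nontrivial annihilator. -/
theorem exists_annihilator (Z : Subgroup (A →ₜ* Circle)) (hZ : Z ≠ ⊤) :
    ∃ a : A, a ≠ 1 ∧ ∀ ψ ∈ Z, ψ a = 1 := by
  by_contra hcon
  push Not at hcon
  obtain ⟨ξ, hξ⟩ : ∃ ξ, ξ ∉ Z := by
    by_contra h
    push Not at h
    exact hZ (eq_top_iff.mpr fun x _ => h x)
  borelize A
  let μ : Measure A := Measure.haar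
  let e : (A →ₜ* Circle) → C(A, ℂ) := fun ψ => ⟨fun x => (ψ x : ℂ),
    continuous_subtype_val.comp ψ.continuous_toFun⟩
  have he : ∀ ψ x, e ψ x = (ψ x : ℂ) := fun ψ x => rfl
  have hemul : ∀ ψ φ, e (ψ * φ) = e ψ * e φ := fun ψ φ => by
    ext x
    simp [he]
  have heone : e 1 = 1 := by
    ext x
    simp [he]
  have hestar : ∀ ψ, star (e ψ) = e ψ⁻¹ := fun ψ => by
    ext x
    change conj (ψ x : ℂ) = (((ψ x)⁻¹ : Circle) : ℂ)
    rw [Circle.coe_inv_eq_conj]
  let S : Submonoid C(A, ℂ) :=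
    { carrier := e '' Z
      mul_mem' := by
        rintro _ _ ⟨ψ, hψ, rfl⟩ ⟨φ, hφ, rfl⟩
        exact ⟨ψ * φ, Z.mul_mem hψ hφ, hemul ψ φ⟩
      one_mem' := ⟨1, Z.one_mem, heone⟩ }
  let 𝒮 : StarSubalgebra ℂ C(A, ℂ) := StarAlgebra.adjoin ℂ (S : Set C(A, ℂ))
  have hstarS : star (S : Set C(A, ℂ)) = S := by
    ext w
    constructor
    · rintro ⟨ψ, hψ, hw⟩
      refine ⟨ψ⁻¹, Z.inv_mem hψ, ?_⟩
      rw [← hestar, hw, star_star]
    · rintro ⟨ψ, hψ, rfl⟩
      exact ⟨ψ⁻¹, Z.inv_mem hψ, (hestar ψ).symm⟩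
  have hspan : ∀ w ∈ 𝒮, w ∈ Submodule.span ℂ (S : Set C(A, ℂ)) := by
    intro w hw
    have h1 : w ∈ (StarAlgebra.adjoin ℂ (S : Set C(A, ℂ))).toSubalgebra := hw
    rw [StarAlgebra.adjoin_toSubalgebra, hstarS, union_self] at h1
    have h2 : w ∈ Subalgebra.toSubmodule (Algebra.adjoin ℂ (S : Set C(A, ℂ))) := h1
    rw [Algebra.adjoin_eq_span, Submonoid.closure_eq] at h2
    exact h2
  have hsep : 𝒮.SeparatesPoints := by
    intro x y hxy
    have h1 : x * y⁻¹ ≠ 1 := fun h => hxy (mul_inv_eq_one.mp h)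
    obtain ⟨ψ, hψ, hne⟩ := hcon _ h1
    refine ⟨e ψ, ⟨e ψ, StarAlgebra.subset_adjoin ℂ _ ⟨ψ, hψ, rfl⟩, rfl⟩, ?_⟩
    intro h2
    rw [he, he] at h2
    apply hne
    rw [map_mul, map_inv, Circle.ext h2, mul_inv_cancel]
  have htop := ContinuousMap.starSubalgebra_topologicalClosure_eq_top_of_separatesPoints 𝒮 hsep
  let L : C(A, ℂ) → ℂ := fun g => inner ℂ (ContinuousMap.toLp 2 μ ℂ (e ξ)) (ContinuousMap.toLp 2 μ ℂ g)
  have hLc : Continuous L := by fun_prop
  have hLapply : ∀ g, L g = ∫ x, g x * conj (e ξ x) ∂μ := fun g => ContinuousMap.inner_toLp μ _ _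
  have hL0 : ∀ g ∈ 𝒮, L g = 0 := by
    intro g hg
    have h1 := hspan g hg
    clear hg
    induction h1 using Submodule.span_induction with
    | mem x hx =>
      obtain ⟨ψ, hψ, rfl⟩ := hx
      rw [hLapply]
      have hne : ψ * ξ⁻¹ ≠ 1 := by
        intro h
        apply hξ
        rw [← mul_inv_eq_one.mp h]
        exact hψ
      obtain ⟨b, hb⟩ : ∃ b, (ψ * ξ⁻¹) b ≠ 1 := by
        by_contra h
        push Not at h
        exact hne (ContinuousMonoidHom.ext h)
      let F : A → ℂ := fun x => (((ψ * ξ⁻¹) x : Circle) : ℂ)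
      have h2 : ∀ x, e ψ x * conj (e ξ x) = F x := by
        intro x
        simp only [F, he]
        rw [← Circle.coe_inv_eq_conj, ← Circle.coe_mul]
        rfl
      simp only [h2]
      have h3 : ∫ x, F x ∂μ = F b * ∫ x, F x ∂μ := by
        conv_lhs => rw [← integral_mul_left_eq_self F b]
        rw [← integral_const_mul]
        congr 1
        ext x
        simp only [F, map_mul, Circle.coe_mul]
      have h4 : (1 - F b) * ∫ x, F x ∂μ = 0 := by
        rw [sub_mul, one_mul, ← h3, sub_self]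
      rcases mul_eq_zero.mp h4 with h5 | h5
      · exfalso
        apply hb
        have h6 : F b = 1 := (sub_eq_zero.mp h5).symm
        exact Circle.ext h6
      · exact h5
    | zero => simp [L]
    | add x y _ _ hx hy =>
      simp only [L] at hx hy ⊢
      rw [map_add, inner_add_right, hx, hy, add_zero]
    | smul a x _ hx =>
      simp only [L] at hx ⊢
      rw [map_smul, inner_smul_right, hx, mul_zero]
  have hmem : e ξ ∈ 𝒮.topologicalClosure := by rw [htop]; trivial
  have hLξ : L (e ξ) = 0 := by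
    have hcl : IsClosed {g | L g = 0} := isClosed_eq hLc continuous_const
    exact closure_minimal hL0 hcl hmem
  rw [hLapply] at hLξ
  have h7 : ∀ x, e ξ x * conj (e ξ x) = 1 := by
    intro x
    rw [he, ← Circle.coe_inv_eq_conj, ← Circle.coe_mul, mul_inv_cancel, Circle.coe_one]
  simp only [h7] at hLξ
  rw [integral_const] at hLξ
  have h8 : μ.real univ = 0 := by simpa using hLξ
  rw [measureReal_eq_zero_iff] at h8
  exact isOpen_univ.measure_ne_zero μ univ_nonempty h8

end Main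

end Pool.Agent.Helper65.PW
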