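import Mathlib
import Pool.Agent.Helper65.PeterWeyl
import Pool.Agent.Helper65.AbChain

open Topology Filter Set

namespace Pool.Agent.Helper65.CompactAct

/-- No small subgroups in the circle. -/
lemma circle_eq_one {z : Circle} (h : ∀ n : ℕ, 0 < ((z ^ n : Circle) : ℂ).re) : z = 1 := by
  by_contra hz
  have hz' : 0 < ‖(z : ℂ) - 1‖ := by
    rw [norm_pos_iff, sub_ne_zero]
    intro h1
    exact hz (Circle.ext (by simpa using h1))
  have hstep : ∀ k : ℕ, (Real.sqrt 2) ^ k * ‖(z : ℂ) - 1‖ ≤ ‖((z ^ (2 ^ k) : Circle) : ℂ) - 1‖ := by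
    intro k
    induction k with
    | zero => simp
    | succ k ih =>
      set w : ℂ := ((z ^ (2 ^ k) : Circle) : ℂ) with hw
      have h1 : ((z ^ (2 ^ (k + 1)) : Circle) : ℂ) = w ^ 2 := by
        rw [pow_succ, pow_mul, Circle.coe_pow]
      have h2 : w ^ 2 - 1 = (w + 1) * (w - 1) := by ring
      have h3 : Real.sqrt 2 ≤ ‖w + 1‖ := by
        rw [Real.sqrt_le_left (norm_nonneg _)]
        have h4 : ‖w‖ = 1 := Circle.norm_coe _
        have h5 : 0 < w.re := h (2 ^ k)
        have h6 : ‖w + 1‖ ^ 2 = (w.re + 1) ^ 2 + w.im ^ 2 := by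
          rw [Complex.sq_norm, Complex.normSq_apply]
          simp
          ring
        have h7 : ‖w‖ ^ 2 = w.re ^ 2 + w.im ^ 2 := by
          rw [Complex.sq_norm, Complex.normSq_apply]
          ring
        rw [h6]
        rw [h4] at h7
        nlinarith
      rw [h1, h2, norm_mul, pow_succ]
      calc Real.sqrt 2 ^ k * Real.sqrt 2 * ‖(z : ℂ) - 1‖
          = Real.sqrt 2 * (Real.sqrt 2 ^ k * ‖(z : ℂ) - 1‖) := by ring
        _ ≤ ‖w + 1‖ * ‖w - 1‖ := by gcongr
  have hsq : 1 < Real.sqrt 2 := by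
    rw [Real.lt_sqrt (by norm_num)]
    norm_num
  obtain ⟨k, hk⟩ := pow_unbounded_of_one_lt (2 / ‖(z : ℂ) - 1‖) hsq
  have h8 := hstep k
  have h9 : ‖((z ^ (2 ^ k) : Circle) : ℂ) - 1‖ ≤ 2 := by
    calc ‖((z ^ (2 ^ k) : Circle) : ℂ) - 1‖ ≤ ‖((z ^ (2 ^ k) : Circle) : ℂ)‖ + ‖(1 : ℂ)‖ := norm_sub_le _ _
      _ = 2 := by rw [Circle.norm_coe, norm_one]; norm_num
  rw [div_lt_iff₀ hz'] at hk
  linarith

variable {K A : Type*} [Group K] [TopologicalSpace K] [IsTopologicalGroup K] [CompactSpace K]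
  [CommGroup A] [TopologicalSpace A] [IsTopologicalGroup A] [CompactSpace A] [T2Space A]
  [MulDistribMulAction K A] [ContinuousSMul K A]

/-- The action of `K` on characters of `A`. -/
noncomputable def act (k : K) (ψ : A →ₜ* Circle) : A →ₜ* Circle :=
  ψ.comp { toMonoidHom := MulDistribMulAction.toMonoidHom A k
           continuous_toFun := continuous_const_smul k }

omit [IsTopologicalGroup K] [CompactSpace K] [IsTopologicalGroup A] [CompactSpace A] [T2Space A] in
lemma act_apply (k : K) (ψ : A →ₜ* Circle) (a : A) : act k ψ a = ψ (k • a) := rfl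

omit [IsTopologicalGroup K] [CompactSpace K] [IsTopologicalGroup A] [CompactSpace A] [T2Space A] in
lemma act_mul (k : K) (ψ φ : A →ₜ* Circle) : act k (ψ * φ) = act k ψ * act k φ := rfl

omit [T2Space A] in
lemma finite_orbit (ψ : A →ₜ* Circle) : (Set.range (fun k : K => act k ψ)).Finite := by
  let S : Subgroup K :=
    { carrier := {k | ∀ a : A, ψ (k • a) = ψ a}
      one_mem' := fun a => by rw [one_smul]
      mul_mem' := fun {k k'} hk hk' a => by
        rw [mul_smul, hk, hk']
      inv_mem' := fun {k} hk a => by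
        rw [← hk (k⁻¹ • a), smul_inv_smul] }
  have hS : IsOpen (S : Set K) := by
    refine Subgroup.isOpen_of_mem_nhds S (g := 1) ?_
    let F : K × A → Circle := fun p => ψ (p.1 • p.2) * (ψ p.2)⁻¹
    have hF : Continuous F := by
      have h1 : Continuous fun p : K × A => ψ (p.1 • p.2) :=
        ψ.continuous_toFun.comp (continuous_fst.smul continuous_snd)
      have h2 : Continuous fun p : K × A => ψ p.2 := ψ.continuous_toFun.comp continuous_snd
      exact h1.mul h2.inv
    let V : Set Circle := {z | 0 < (z : ℂ).re}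
    have hV : IsOpen V := by
      have : Continuous fun z : Circle => (z : ℂ).re := Complex.continuous_re.comp continuous_subtype_val
      exact isOpen_lt continuous_const this
    obtain ⟨u, v, hu, -, h1u, hv, huv⟩ := generalized_tube_lemma (isCompact_singleton (x := (1 : K)))
      (isCompact_univ (X := A)) (hV.preimage hF) (by
        rintro ⟨k, a⟩ ⟨hk, -⟩
        have hk' : k = 1 := hk
        subst hk'
        change 0 < ((ψ ((1 : K) • a) * (ψ a)⁻¹ : Circle) : ℂ).re
        rw [one_smul, mul_inv_cancel]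
        simp)
    refine mem_of_superset (hu.mem_nhds (h1u rfl)) ?_
    intro k hk a
    have h2 : F (k, a) = 1 := by
      refine circle_eq_one fun n => ?_
      have h3 : F (k, a) ^ n = F (k, a ^ n) := by
        simp only [F, smul_pow', map_pow, mul_pow, inv_pow]
      rw [h3]
      exact huv ⟨hk, hv (mem_univ _)⟩
    exact mul_inv_eq_one.mp h2
  have hfin : Finite (K ⧸ S) := Subgroup.quotient_finite_of_isOpen S hS
  let Φ : K ⧸ S → (A →ₜ* Circle) := Quotient.lift (fun k : K => act k⁻¹ ψ) (by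
    intro k k' hkk'
    have h1 : k⁻¹ * k' ∈ S := QuotientGroup.leftRel_apply.mp hkk'
    ext a
    rw [act_apply, act_apply]
    have h2 := h1 (k'⁻¹ • a)
    rw [mul_smul, smul_inv_smul] at h2
    exact congrArg _ h2)
  refine (Set.finite_range Φ).subset ?_
  rintro _ ⟨k, rfl⟩
  refine ⟨QuotientGroup.mk k⁻¹, ?_⟩
  change act (k⁻¹)⁻¹ ψ = act k ψ
  rw [inv_inv]

omit [IsTopologicalGroup A] in
/-- The topology of a compact abelian group is the topology of pointwise convergence on characters. -/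
lemma tendsto_of_char [IsTopologicalGroup A] {g : ℕ → A}
    (h : ∀ ψ : A →ₜ* Circle, Tendsto (fun n => ψ (g n)) atTop (𝓝 1)) :
    Tendsto g atTop (𝓝 1) := by
  let Φ : A → ((A →ₜ* Circle) → Circle) := fun a ψ => ψ a
  have hΦ : Continuous Φ := continuous_pi fun ψ => ψ.continuous_toFun
  have hinj : Function.Injective Φ := by
    intro a b hab
    by_contra hne
    obtain ⟨χ, hχ⟩ := PW.exists_char_ne_one (a := a * b⁻¹) (fun h => hne (mul_inv_eq_one.mp h))
    apply hχ
    have h1 : χ a = χ b := congrFun hab χ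
    rw [map_mul, map_inv, h1, mul_inv_cancel]
  have hcl := hΦ.isClosedEmbedding hinj
  rw [hcl.isEmbedding.tendsto_nhds_iff, tendsto_pi_nhds]
  intro ψ
  have : Φ 1 ψ = 1 := map_one ψ
  rw [this]
  exact h ψ

/-- Evaluation of characters. -/
noncomputable def ev {A : Type*} [CommGroup A] [TopologicalSpace A] (a : A) :
    (A →ₜ* Circle) →* Circle where
  toFun ψ := ψ a
  map_one' := rfl
  map_mul' := fun _ _ => rfl

lemma char_pow {A : Type*} [CommGroup A] [TopologicalSpace A] (ψ : A →ₜ* Circle) (n : ℕ) (a : A) :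
    (ψ ^ n) a = ψ a ^ n := map_pow (ev a) ψ n

lemma char_zpow {A : Type*} [CommGroup A] [TopologicalSpace A] (ψ : A →ₜ* Circle) (n : ℤ) (a : A) :
    (ψ ^ n) a = ψ a ^ n := map_zpow (ev a) ψ n

/-- A subgroup of characters invariant under `K`. -/
def Inv (K : Type*) {A : Type*} [Group K] [TopologicalSpace K] [CommGroup A] [TopologicalSpace A]
    [MulDistribMulAction K A] [ContinuousSMul K A] (Z : Subgroup (A →ₜ* Circle)) : Prop :=
  ∀ k : K, ∀ ψ ∈ Z, act k ψ ∈ Z

/-- `H` meets every nontrivial closed `K`-invariant subgroup. -/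
def Ess (K : Type*) {A : Type*} [Group K] [CommGroup A] [TopologicalSpace A]
    [MulDistribMulAction K A] (H : Set A) : Prop :=
  ∀ N : Subgroup A, IsClosed (N : Set A) → (∀ k : K, ∀ a ∈ N, k • a ∈ N) → N ≠ ⊥ →
    ∃ h ∈ H, h ∈ N ∧ h ≠ 1

lemma exists_mem_annihilator {H : Set A} (hH : Ess K H) {Z : Subgroup (A →ₜ* Circle)}
    (hZ : Inv K Z) (hZt : Z ≠ ⊤) : ∃ h ∈ H, h ≠ 1 ∧ ∀ ψ ∈ Z, ψ h = 1 := by
  let N : Subgroup A :=
    { carrier := {a | ∀ ψ ∈ Z, ψ a = 1}
      one_mem' := fun ψ _ => map_one ψ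
      mul_mem' := fun {a b} ha hb ψ hψ => by rw [map_mul, ha ψ hψ, hb ψ hψ, one_mul]
      inv_mem' := fun {a} ha ψ hψ => by rw [map_inv, ha ψ hψ, inv_one] }
  have hNc : IsClosed (N : Set A) := by
    have : (N : Set A) = ⋂ ψ ∈ Z, {a | ψ a = 1} := by
      ext a
      simp [N]
    rw [this]
    refine isClosed_biInter fun ψ _ => isClosed_eq ψ.continuous_toFun continuous_const
  have hNk : ∀ k : K, ∀ a ∈ N, k • a ∈ N := fun k a ha ψ hψ => ha (act k ψ) (hZ k ψ hψ)
  obtain ⟨a, ha1, ha⟩ := PW.exists_annihilator Z hZt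
  have hN : N ≠ ⊥ := by
    intro h
    have h1 : a ∈ N := ha
    rw [h, Subgroup.mem_bot] at h1
    exact ha1 h1
  obtain ⟨h, hh, hhN, hh1⟩ := hH N hNc hNk hN
  exact ⟨h, hh, hh1, hhN⟩

/-- Additive version of the character group. -/
abbrev XX (A : Type*) [CommGroup A] [TopologicalSpace A] : Type _ := Additive (A →ₜ* Circle)

theorem null_of_chain {H : Set A} (hH : Ess K H) (hX : AbChain.HasChain (XX A)) :
    ∃ g : ℕ → A, (∀ n, g n ∈ H ∧ g n ≠ 1) ∧ Tendsto g atTop (𝓝 1) := by
  obtain ⟨Y, hmono, htop, hunion⟩ := hX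
  let Z : ℕ → Subgroup (A →ₜ* Circle) := fun n =>
    { carrier := {ψ | ∀ k : K, Additive.ofMul (act k ψ) ∈ Y n}
      one_mem' := fun k => (Y n).zero_mem
      mul_mem' := fun {ψ φ} hψ hφ k => by
        rw [act_mul]
        exact (Y n).add_mem (hψ k) (hφ k)
      inv_mem' := fun {ψ} hψ k => (Y n).neg_mem (hψ k) }
  have hact1 : ∀ ψ : A →ₜ* Circle, act (1 : K) ψ = ψ := fun ψ => by
    ext a
    rw [act_apply, one_smul]
  have hZt : ∀ n, Z n ≠ ⊤ := by
    intro n hn
    apply htop n
    rw [eq_top_iff]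
    intro x _
    have h1 : x.toMul ∈ Z n := by rw [hn]; trivial
    have h2 := h1 1
    rw [hact1] at h2
    exact h2
  have hZi : ∀ n, Inv K (Z n) := by
    intro n k ψ hψ k'
    have : act k' (act k ψ) = act (k * k') ψ := by
      ext a
      simp only [act_apply, mul_smul]
    rw [this]
    exact hψ (k * k')
  have hZu : ∀ ψ, ∃ n, ∀ m, n ≤ m → ψ ∈ Z m := by
    intro ψ
    have hfin := finite_orbit (K := K) ψ
    choose N hN using fun φ : A →ₜ* Circle => hunion (Additive.ofMul φ)
    obtain ⟨M, hM⟩ := (hfin.image N).bddAbove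
    refine ⟨M, fun m hm k => ?_⟩
    have h1 : N (act k ψ) ≤ M := hM ⟨act k ψ, ⟨k, rfl⟩, rfl⟩
    exact hmono (h1.trans hm) (hN (act k ψ))
  choose g hgH hg1 hg using fun n => exists_mem_annihilator hH (hZi n) (hZt n)
  refine ⟨g, fun n => ⟨hgH n, hg1 n⟩, tendsto_of_char fun ψ => ?_⟩
  obtain ⟨n, hn⟩ := hZu ψ
  refine tendsto_const_nhds.congr' ?_
  filter_upwards [eventually_ge_atTop n] with m hm
  exact (hg m ψ (hn m hm)).symm

theorem null_of_fg [Infinite A] {H : Subgroup A} (hH : Ess K (H : Set A)) (hX : Module.Finite ℤ (XX A)) :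
    ∃ g : ℕ → A, (∀ n, g n ∈ H ∧ g n ≠ 1) ∧ Tendsto g atTop (𝓝 1) := by
  -- the dual is infinite
  have hXinf : Infinite (XX A) := by
    by_contra hfin
    have hfin' : Finite (XX A) := not_infinite_iff_finite.mp hfin
    have hfin'' : Finite (A →ₜ* Circle) := hfin'
    let m := Nat.card (A →ₜ* Circle)
    have hm : m ≠ 0 := Nat.card_pos.ne'
    have : NeZero m := ⟨hm⟩
    have hpow : ∀ (ψ : A →ₜ* Circle) (a : A), ψ a ^ m = 1 := by
      intro ψ a
      rw [← char_pow, pow_card_eq_one']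
      rfl
    let Φ : A → ((A →ₜ* Circle) → rootsOfUnity m ℂ) := fun a ψ =>
      ⟨Circle.toUnits (ψ a), by
        rw [mem_rootsOfUnity, ← map_pow, hpow, map_one]⟩
    have hΦ : Function.Injective Φ := by
      intro a b hab
      by_contra hne
      obtain ⟨χ, hχ⟩ := PW.exists_char_ne_one (a := a * b⁻¹) (fun h => hne (mul_inv_eq_one.mp h))
      apply hχ
      have h1 : Circle.toUnits (χ a) = Circle.toUnits (χ b) := congrArg Subtype.val (congrFun hab χ)
      have h2 : χ a = χ b := by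
        have := congrArg (Units.val) h1
        exact Circle.ext (by simpa using this)
      rw [map_mul, map_inv, h2, mul_inv_cancel]
    exact not_finite_iff_infinite.mpr ‹Infinite A› (Finite.of_injective Φ hΦ)
  -- `p X ≠ X`
  have hp : ∀ p : ℕ, p.Prime → ∃ h ∈ H, h ≠ 1 ∧ h ^ p = 1 := by
    intro p hp
    let Z : Subgroup (A →ₜ* Circle) := (powMonoidHom p).range
    have hZi : Inv K Z := by
      rintro k _ ⟨ψ, rfl⟩
      refine ⟨act k ψ, ?_⟩
      ext a
      simp only [powMonoidHom_apply, char_pow, act_apply]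
    have hZt : Z ≠ ⊤ := by
      intro htop
      have h1 : (⊤ : Submodule ℤ (XX A)) ≤ Ideal.span {(p : ℤ)} • ⊤ := by
        intro x _
        have h2 : x.toMul ∈ Z := by rw [htop]; trivial
        obtain ⟨ψ, hψ⟩ := h2
        have h3 : x = (p : ℤ) • (Additive.ofMul ψ) := by
          rw [natCast_zsmul]
          exact hψ.symm
        rw [h3]
        exact Submodule.smul_mem_smul (Ideal.mem_span_singleton_self _) trivial
      obtain ⟨r, hr1, hr⟩ := Submodule.exists_sub_one_mem_and_smul_eq_zero_of_fg_of_le_smul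
        (Ideal.span {(p : ℤ)}) ⊤ hX.fg_top h1
      have hr0 : r ≠ 0 := by
        rintro rfl
        rw [Ideal.mem_span_singleton] at hr1
        have h4 : (p : ℤ) ∣ 1 := by
          have := (dvd_neg (a := (p : ℤ)) (b := 0 - 1)).mpr hr1
          simpa using this
        have h5 : p ∣ 1 := by exact_mod_cast h4
        exact hp.one_lt.ne' (Nat.dvd_one.mp h5)
      have htors : Module.IsTorsion ℤ (XX A) := by
        intro x
        exact ⟨⟨r, mem_nonZeroDivisors_of_ne_zero hr0⟩, hr x trivial⟩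
      have hfin : Finite (XX A) := Module.finite_of_fg_torsion (XX A) htors
      exact not_finite (XX A)
    obtain ⟨h, hh, hh1, hhZ⟩ := exists_mem_annihilator hH hZi hZt
    refine ⟨h, hh, hh1, ?_⟩
    by_contra hne
    obtain ⟨χ, hχ⟩ := PW.exists_char_ne_one hne
    apply hχ
    rw [map_pow, ← char_pow]
    exact hhZ (χ ^ p) ⟨χ, rfl⟩
  choose! h hhH hh1 hhp using hp
  let f : ℕ → A := fun n => h (Nat.nth Nat.Prime n)
  have hfinj : ∀ n m, n ≠ m → f n ≠ f m := by
    intro n m hnm heq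
    have hpn : (Nat.nth Nat.Prime n).Prime := Nat.prime_nth_prime n
    have hpm : (Nat.nth Nat.Prime m).Prime := Nat.prime_nth_prime m
    have hne : Nat.nth Nat.Prime n ≠ Nat.nth Nat.Prime m := fun h =>
      hnm (Nat.nth_injective Nat.infinite_setOfPred_prime h)
    have h1 : f n ^ (Nat.nth Nat.Prime n) = 1 := hhp _ hpn
    have h2 : f n ^ (Nat.nth Nat.Prime m) = 1 := by rw [heq]; exact hhp _ hpm
    have h3 := pow_gcd_eq_one.mpr ⟨h1, h2⟩
    rw [(Nat.coprime_primes hpn hpm).mpr hne, pow_one] at h3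
    exact hh1 _ hpn h3
  obtain ⟨S, hS⟩ := hX.fg_top
  obtain ⟨y, φ, hφ, hy⟩ := CompactSpace.tendsto_subseq
    (fun (n : ℕ) (ψ : S) => (ψ.1.toMul : A →ₜ* Circle) (f n))
  let d : ℕ → A := fun n => f (φ (n + 1)) * (f (φ n))⁻¹
  have hd : ∀ x : XX A, Tendsto (fun n => (x.toMul : A →ₜ* Circle) (d n)) atTop (𝓝 1) := by
    intro x
    have hx : x ∈ Submodule.span ℤ (S : Set (XX A)) := by rw [hS]; trivial
    induction hx using Submodule.span_induction with
    | mem x hx =>
      rw [tendsto_pi_nhds] at hy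
      have h1 := hy ⟨x, hx⟩
      have h2 := h1.comp (tendsto_add_atTop_nat 1)
      have h3 := h2.mul h1.inv
      rw [mul_inv_cancel] at h3
      refine h3.congr fun n => ?_
      simp only [d, map_mul, map_inv]
      rfl
    | zero => exact tendsto_const_nhds
    | add x y _ _ hx hy =>
      have := hx.mul hy
      rw [one_mul] at this
      exact this
    | smul c x _ hx =>
      have h1 : Tendsto (fun n => ((x.toMul : A →ₜ* Circle) (d n)) ^ c) atTop (𝓝 (1 ^ c)) :=
        hx.zpow c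
      rw [one_zpow] at h1
      refine h1.congr fun n => ?_
      exact (char_zpow _ c (d n)).symm
  refine ⟨d, fun n => ⟨H.mul_mem (hhH _ (Nat.prime_nth_prime _)) (H.inv_mem (hhH _ (Nat.prime_nth_prime _))), ?_⟩,
    tendsto_of_char fun ψ => hd (Additive.ofMul ψ)⟩
  intro h0
  exact hfinj _ _ (hφ.injective.ne (Nat.succ_ne_self n)) (mul_inv_eq_one.mp h0)

/-- **Key theorem**: existence of null sequences. -/
theorem exists_null [Infinite A] {H : Subgroup A} (hH : Ess K (H : Set A)) :
    ∃ g : ℕ → A, (∀ n, g n ∈ H ∧ g n ≠ 1) ∧ Tendsto g atTop (𝓝 1) := by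
  by_cases hX : Module.Finite ℤ (XX A)
  · exact null_of_fg hH hX
  · exact null_of_chain hH (AbChain.hasChain_of_not_fg hX)

end Pool.Agent.Helper65.CompactAct
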