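import Mathlib
import Pool.Agent.Helper65.CompactAct

open Topology Filter Set
open scoped Pointwise

set_option linter.unusedSectionVars false

namespace Pool.Agent.Helper65.CompactSolv

variable {K : Type*} [Group K] [TopologicalSpace K] [IsTopologicalGroup K] [CompactSpace K] [T2Space K]

/-- If all commutators of elements of the infinite closed subgroup `N` of a compact group lie in a
finite set, then the centre of `N` is infinite. -/
lemma infinite_center {N : Subgroup K} (hNc : IsClosed (N : Set K)) (hNinf : (N : Set K).Infinite)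
    {E : Set K} (hE : E.Finite) (hcomm : ∀ a ∈ N, ∀ b ∈ N, a * b * a⁻¹ * b⁻¹ ∈ E) :
    {a : K | a ∈ N ∧ ∀ b ∈ N, a * b = b * a}.Infinite := by
  intro hfin
  -- an open set isolating `1` in `E`
  have hE' : IsClosed (E \ {1}) := (hE.subset sdiff_subset).isClosed
  have hO : IsOpen (E \ {1})ᶜ := hE'.isOpen_compl
  have hNcomp : IsCompact (N : Set K) := hNc.isCompact
  have hF : Continuous fun p : K × K => p.1 * p.2 * p.1⁻¹ * p.2⁻¹ := by fun_prop
  obtain ⟨u, v, hu, -, h1u, hNv, huv⟩ := generalized_tube_lemma (isCompact_singleton (x := (1 : K)))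
    hNcomp (hO.preimage hF) (by
      rintro ⟨a, b⟩ ⟨ha, -⟩
      have ha' : a = 1 := ha
      subst ha'
      simp)
  have hcent : ∀ a ∈ u, a ∈ N → ∀ b ∈ N, a * b = b * a := by
    intro a hau haN b hbN
    have h1 : a * b * a⁻¹ * b⁻¹ ∈ (E \ {1})ᶜ := huv (show (a, b) ∈ u ×ˢ v from ⟨hau, hNv hbN⟩)
    have h2 : a * b * a⁻¹ * b⁻¹ = 1 := by
      by_contra hne
      exact h1 ⟨hcomm a haN b hbN, hne⟩
    have h3 : a * b * a⁻¹ = b := mul_inv_eq_one.mp h2
    rw [mul_inv_eq_iff_eq_mul] at h3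
    exact h3
  -- finitely many translates of `u` cover `N`
  obtain ⟨t, htN, hcov⟩ := hNcomp.elim_nhds_subcover (fun x => x • u) (fun x _ => by
    have h1 : (1 : K) ∈ u := h1u rfl
    exact (hu.smul x).mem_nhds ⟨1, h1, by simp⟩)
  apply hNinf
  refine (t.finite_toSet.biUnion (t := fun x => (fun a => x * a) ''
    {a : K | a ∈ N ∧ ∀ b ∈ N, a * b = b * a}) fun x _ => hfin.image _).subset ?_
  intro y hy
  obtain ⟨x, hxt, hyx⟩ := mem_iUnion₂.mp (hcov hy)
  obtain ⟨z, hz, hzy⟩ := hyx
  have hzy' : x * z = y := hzy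
  have hzN : z ∈ N := by
    have : z = x⁻¹ * y := by rw [← hzy']; group
    rw [this]
    exact N.mul_mem (N.inv_mem (htN x hxt)) hy
  exact mem_biUnion hxt ⟨z, ⟨hzN, hcent z hz hzN⟩, hzy'⟩

theorem exists_abelian [Infinite K] (C : ℕ → Subgroup K) (hn : ∀ n, (C n).Normal)
    (hc : ∀ n, IsClosed (C n : Set K)) (h0 : C 0 = ⊤) (d : ℕ) (hd : C d = ⊥)
    (hcomm : ∀ n, ∀ a ∈ C n, ∀ b ∈ C n, a * b * a⁻¹ * b⁻¹ ∈ C (n + 1)) :
    ∃ A : Subgroup K, A.Normal ∧ IsClosed (A : Set K) ∧ (∀ a ∈ A, ∀ b ∈ A, a * b = b * a) ∧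
      (A : Set K).Infinite := by
  classical
  have hex : ∃ n, (C n : Set K).Finite := ⟨d, by rw [hd]; simp⟩
  let n := Nat.find hex
  have hnfin : (C n : Set K).Finite := Nat.find_spec hex
  have hn0 : n ≠ 0 := by
    intro h
    rw [h, h0] at hnfin
    exact Set.infinite_univ hnfin
  obtain ⟨m, hm⟩ := Nat.exists_eq_succ_of_ne_zero hn0
  have hminf : (C m : Set K).Infinite := Nat.find_min hex (show m < n by omega)
  rw [hm] at hnfin
  set E : Subgroup K := C (m + 1) with hE
  set P : Subgroup K := C m with hP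
  have hEn : E.Normal := hn (m + 1)
  have hPn : P.Normal := hn m
  have hEfin : Finite E := hnfin
  let N : Subgroup K := P ⊓ Subgroup.centralizer (E : Set K)
  have hNmem : ∀ a, a ∈ N ↔ a ∈ P ∧ ∀ e ∈ E, e * a = a * e := by
    intro a
    rw [Subgroup.mem_inf, Subgroup.mem_centralizer_iff]
    rfl
  have hNc : IsClosed (N : Set K) := by
    have : (N : Set K) = (P : Set K) ∩ ⋂ e ∈ E, {a | e * a = a * e} := by
      ext a
      simp only [mem_inter_iff, mem_iInter, mem_setOf_eq, SetLike.mem_coe]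
      exact hNmem a
    rw [this]
    refine (hc m).inter (isClosed_biInter fun e _ => isClosed_eq (by fun_prop) (by fun_prop))
  have hNn : ∀ k : K, ∀ a ∈ N, k * a * k⁻¹ ∈ N := by
    intro k a ha
    rw [hNmem] at ha ⊢
    refine ⟨hPn.conj_mem a ha.1 k, fun e he => ?_⟩
    have h1 := ha.2 (k⁻¹ * e * k) (by simpa using hEn.conj_mem e he k⁻¹)
    calc e * (k * a * k⁻¹) = k * ((k⁻¹ * e * k) * a) * k⁻¹ := by group
      _ = k * (a * (k⁻¹ * e * k)) * k⁻¹ := by rw [h1]
      _ = k * a * k⁻¹ * e := by group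
  have hNinf : (N : Set K).Infinite := by
    intro hNfin
    let φ : P →* MulAut E := (MulAut.conjNormal).comp P.subtype
    have hker : ∀ x : P, x ∈ φ.ker → (x : K) ∈ N := by
      intro x hx
      rw [hNmem]
      refine ⟨x.2, fun e he => ?_⟩
      have h1 : φ x = 1 := hx
      have h2 := congrArg (fun f : MulAut E => ((f ⟨e, he⟩ : E) : K)) h1
      have h3 : (x : K) * e * (x : K)⁻¹ = e := by simpa [φ] using h2
      rw [mul_inv_eq_iff_eq_mul] at h3
      exact h3.symm
    have hkfin : Finite φ.ker := by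
      have : Finite N := hNfin
      exact Finite.of_injective (fun x : φ.ker => (⟨(x : P), hker x x.2⟩ : N)) (by
        intro x y hxy
        exact Subtype.ext (Subtype.ext (congrArg (fun z : N => (z : K)) hxy)))
    have hqfin : Finite (P ⧸ φ.ker) :=
      Finite.of_injective _ (QuotientGroup.kerLift_injective φ)
    have : Finite P := Finite.of_subgroup_quotient φ.ker
    exact hminf this
  let A : Subgroup K :=
    { carrier := {a | a ∈ N ∧ ∀ b ∈ N, a * b = b * a}
      one_mem' := ⟨N.one_mem, fun b _ => by simp⟩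
      mul_mem' := fun {a a'} ha ha' => ⟨N.mul_mem ha.1 ha'.1, fun b hb => by
        rw [mul_assoc, ha'.2 b hb, ← mul_assoc, ha.2 b hb, mul_assoc]⟩
      inv_mem' := fun {a} ha => ⟨N.inv_mem ha.1, fun b hb => by
        rw [inv_mul_eq_iff_eq_mul, ← mul_assoc, ha.2 b hb, mul_assoc, mul_inv_cancel, mul_one]⟩ }
  refine ⟨A, ⟨?_⟩, ?_, ?_, ?_⟩
  · intro a ha k
    refine ⟨hNn k a ha.1, fun b hb => ?_⟩
    have h1 := ha.2 (k⁻¹ * b * k) (by simpa using hNn k⁻¹ b hb)
    calc k * a * k⁻¹ * b = k * (a * (k⁻¹ * b * k)) * k⁻¹ := by group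
      _ = k * ((k⁻¹ * b * k) * a) * k⁻¹ := by rw [h1]
      _ = b * (k * a * k⁻¹) := by group
  · have : (A : Set K) = (N : Set K) ∩ ⋂ b ∈ N, {a | a * b = b * a} := by
      ext a
      simp only [mem_inter_iff, mem_iInter, mem_setOf_eq, SetLike.mem_coe]
      rfl
    rw [this]
    exact hNc.inter (isClosed_biInter fun b _ => isClosed_eq (by fun_prop) (by fun_prop))
  · intro a ha b hb
    exact ha.2 b hb.1
  · exact infinite_center hNc hNinf hnfin (fun a ha b hb => hcomm m a ((hNmem a).mp ha).1 b ((hNmem b).mp hb).1)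

/-- **Null sequences in essential subgroups of compact groups with an infinite closed normal
abelian subgroup.** -/
theorem exists_null_of_abelian (G : Subgroup K)
    (hess : ∀ N : Subgroup K, N.Normal → IsClosed (N : Set K) → N ≠ ⊥ → ∃ g ∈ G, g ∈ N ∧ g ≠ 1)
    (A : Subgroup K) (hAn : A.Normal) (hAc : IsClosed (A : Set K))
    (hcomm : ∀ a ∈ A, ∀ b ∈ A, a * b = b * a) (hAinf : (A : Set K).Infinite) :
    ∃ g : ℕ → K, (∀ n, g n ∈ G ∧ g n ≠ 1) ∧ Tendsto g atTop (𝓝 1) := by
  let _ : CommGroup A :=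
    { (inferInstance : Group A) with
      mul_comm := fun a b => Subtype.ext (hcomm a a.2 b b.2) }
  have : CompactSpace A := isCompact_iff_compactSpace.mp hAc.isCompact
  have : Infinite A := hAinf.to_subtype
  let _ : MulDistribMulAction K A := MulDistribMulAction.compHom A (MulAut.conjNormal (H := A))
  have hsmul : ∀ (k : K) (a : A), ((k • a : A) : K) = k * a * k⁻¹ := fun k a => rfl
  have : ContinuousSMul K A := ⟨by
    refine Continuous.subtype_mk (f := fun p : K × A => p.1 * (p.2 : K) * p.1⁻¹) ?_ _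
    fun_prop⟩
  have hH : CompactAct.Ess K ((G.subgroupOf A : Subgroup A) : Set A) := by
    intro N hNc hNk hN
    have h1 : (N.map A.subtype).Normal := by
      refine ⟨?_⟩
      rintro _ ⟨a, ha, rfl⟩ k
      exact ⟨k • a, hNk k a ha, hsmul k a⟩
    have h2 : IsClosed ((N.map A.subtype : Subgroup K) : Set K) := by
      rw [Subgroup.coe_map]
      exact hAc.isClosedMap_subtype_val _ hNc
    have h3 : N.map A.subtype ≠ ⊥ := by
      intro h
      apply hN
      rw [eq_bot_iff]
      intro a ha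
      have h4 : (a : K) ∈ N.map A.subtype := ⟨a, ha, rfl⟩
      rw [h, Subgroup.mem_bot] at h4
      exact Subtype.ext h4
    obtain ⟨g, hg, ⟨a, ha, rfl⟩, hg1⟩ := hess _ h1 h2 h3
    exact ⟨a, hg, ha, fun h => hg1 (by rw [h]; rfl)⟩
  obtain ⟨g, hg, hlim⟩ := CompactAct.exists_null (K := K) (A := A) (H := G.subgroupOf A) hH
  refine ⟨fun n => g n, fun n => ⟨(hg n).1, fun h => (hg n).2 (Subtype.ext h)⟩, ?_⟩
  exact (continuous_subtype_val.tendsto (1 : A)).comp hlim

end Pool.Agent.Helper65.CompactSolv
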