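import Mathlib

/-! Golden–Thompson inequality for Hermitian complex matrices. -/

open Matrix Filter Topology
open scoped Matrix ComplexOrder MatrixOrder

namespace Pool.Agent.Helper65.GoldenThompson

section Trotter

variable {𝔸 : Type*} [NormedRing 𝔸] [NormedAlgebra ℝ 𝔸] [CompleteSpace 𝔸] [NormOneClass 𝔸]

omit [NormedAlgebra ℝ 𝔸] [CompleteSpace 𝔸] in
theorem pow_sub_pow_norm_le (x y : 𝔸) (M : ℝ) (hM : 1 ≤ M) (hx : ‖x‖ ≤ M) (hy : ‖y‖ ≤ M)
    (n : ℕ) : ‖x ^ n - y ^ n‖ ≤ n * ‖x - y‖ * M ^ n := by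
  induction n with
  | zero => simp
  | succ n ih =>
    have h0 : x ^ (n + 1) - y ^ (n + 1) = x ^ n * (x - y) + (x ^ n - y ^ n) * y := by
      rw [pow_succ, pow_succ]; noncomm_ring
    have hM0 : 0 ≤ M := le_trans zero_le_one hM
    have h1 : ‖x ^ n * (x - y)‖ ≤ M ^ n * ‖x - y‖ := by
      refine (norm_mul_le _ _).trans ?_
      refine mul_le_mul_of_nonneg_right ?_ (norm_nonneg _)
      exact (norm_pow_le x n).trans (pow_le_pow_left₀ (norm_nonneg _) hx n)
    have h2 : ‖(x ^ n - y ^ n) * y‖ ≤ (n * ‖x - y‖ * M ^ n) * M := by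
      refine (norm_mul_le _ _).trans ?_
      exact mul_le_mul ih hy (norm_nonneg _) (by positivity)
    have h3 : M ^ n * ‖x - y‖ ≤ M ^ (n + 1) * ‖x - y‖ := by
      refine mul_le_mul_of_nonneg_right ?_ (norm_nonneg _)
      exact pow_le_pow_right₀ hM (Nat.le_succ n)
    rw [h0]
    refine (norm_add_le _ _).trans ?_
    have : ((n + 1 : ℕ) : ℝ) * ‖x - y‖ * M ^ (n + 1)
        = M ^ (n + 1) * ‖x - y‖ + (n * ‖x - y‖ * M ^ n) * M := by
      push_cast; ring
    rw [this]
    linarith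

omit [CompleteSpace 𝔸] in
theorem tendsto_pow_sub_pow (f g : ℝ → 𝔸) (D : 𝔸) (hf : HasDerivAt f D 0)
    (hg : HasDerivAt g D 0) (hf0 : f 0 = 1) (hg0 : g 0 = 1) :
    Tendsto (fun N : ℕ => f (1 / (N : ℝ)) ^ N - g (1 / (N : ℝ)) ^ N) atTop (𝓝 0) := by
  -- derivative of the difference
  have hd : HasDerivAt (fun t => f t - g t) (D - D) 0 := hf.sub hg
  rw [sub_self] at hd
  have ho : (fun t : ℝ => f t - g t) =o[𝓝 0] fun t : ℝ => t := by
    have := hd.isLittleO
    simpa [hf0, hg0] using this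
  have hfO : (fun t : ℝ => f t - 1) =O[𝓝 0] fun t : ℝ => t := by
    have := hf.isBigO_sub
    simpa [hf0] using this
  have hgO : (fun t : ℝ => g t - 1) =O[𝓝 0] fun t : ℝ => t := by
    have := hg.isBigO_sub
    simpa [hg0] using this
  obtain ⟨C₁, hC₁⟩ := hfO.bound
  obtain ⟨C₂, hC₂⟩ := hgO.bound
  set C : ℝ := max 0 (max C₁ C₂) with hC
  have hCpos : 0 ≤ C := le_max_left _ _
  have hlim : Tendsto (fun N : ℕ => 1 / (N : ℝ)) atTop (𝓝 0) := tendsto_one_div_atTop_nhds_zero_nat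
  have e1 := hlim.eventually hC₁
  have e2 := hlim.eventually hC₂
  rw [tendsto_zero_iff_norm_tendsto_zero]
  have hN : Tendsto (fun N : ℕ => (N : ℝ) * ‖f (1 / (N : ℝ)) - g (1 / (N : ℝ))‖) atTop (𝓝 0) := by
    have ho' : (fun N : ℕ => f (1 / (N : ℝ)) - g (1 / (N : ℝ))) =o[atTop]
        fun N : ℕ => 1 / (N : ℝ) := ho.comp_tendsto hlim
    have ho'' := ho'.norm_left
    have := ho''.tendsto_div_nhds_zero
    refine this.congr (fun N => ?_)
    rw [div_div_eq_mul_div, div_one, mul_comm]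
  have hbound : ∀ᶠ N : ℕ in atTop, ‖f (1 / (N : ℝ)) ^ N - g (1 / (N : ℝ)) ^ N‖
      ≤ ((N : ℝ) * ‖f (1 / (N : ℝ)) - g (1 / (N : ℝ))‖) * Real.exp C := by
    filter_upwards [e1, e2, eventually_ge_atTop 1] with N h1 h2 hN1
    have hNpos : (0 : ℝ) < N := by exact_mod_cast hN1
    have hnn : ‖(1 / (N : ℝ) : ℝ)‖ = 1 / (N : ℝ) := by
      rw [Real.norm_of_nonneg]; positivity
    set M : ℝ := Real.exp (C / N) with hM
    have hM1 : 1 ≤ M := Real.one_le_exp (by positivity)
    have hMle : 1 + C * (1 / N) ≤ M := by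
      have := Real.add_one_le_exp (C / N)
      rw [hM]
      calc 1 + C * (1 / (N : ℝ)) = C / N + 1 := by ring
        _ ≤ _ := this
    have hfM : ‖f (1 / (N : ℝ))‖ ≤ M := by
      calc ‖f (1 / (N : ℝ))‖ = ‖1 + (f (1 / (N : ℝ)) - 1)‖ := by congr 1; abel
        _ ≤ ‖(1 : 𝔸)‖ + ‖f (1 / (N : ℝ)) - 1‖ := norm_add_le _ _
        _ ≤ 1 + C * (1 / N) := by
            rw [norm_one]
            have : C₁ * ‖(1 / (N : ℝ) : ℝ)‖ ≤ C * (1 / N) := by
              rw [hnn]
              refine mul_le_mul_of_nonneg_right ?_ (by positivity)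
              exact (le_max_left _ _).trans (le_max_right _ _)
            linarith
        _ ≤ M := hMle
    have hgM : ‖g (1 / (N : ℝ))‖ ≤ M := by
      calc ‖g (1 / (N : ℝ))‖ = ‖1 + (g (1 / (N : ℝ)) - 1)‖ := by congr 1; abel
        _ ≤ ‖(1 : 𝔸)‖ + ‖g (1 / (N : ℝ)) - 1‖ := norm_add_le _ _
        _ ≤ 1 + C * (1 / N) := by
            rw [norm_one]
            have : C₂ * ‖(1 / (N : ℝ) : ℝ)‖ ≤ C * (1 / N) := by
              rw [hnn]
              refine mul_le_mul_of_nonneg_right ?_ (by positivity)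
              exact (le_max_right _ _).trans (le_max_right _ _)
            linarith
        _ ≤ M := hMle
    have := pow_sub_pow_norm_le (f (1 / (N : ℝ))) (g (1 / (N : ℝ))) M hM1 hfM hgM N
    have hMN : M ^ N = Real.exp C := by
      rw [hM, ← Real.exp_nat_mul]
      congr 1
      field_simp
    rwa [hMN] at this
  have hz : Tendsto (fun N : ℕ => ((N : ℝ) * ‖f (1 / (N : ℝ)) - g (1 / (N : ℝ))‖) * Real.exp C)
      atTop (𝓝 0) := by
    simpa using hN.mul_const (Real.exp C)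
  exact squeeze_zero' (Eventually.of_forall fun _ => norm_nonneg _) hbound hz

/-- Lie–Trotter product formula in a real Banach algebra. -/
theorem tendsto_exp_mul_exp_pow (A B : 𝔸) :
    Tendsto (fun N : ℕ => (NormedSpace.exp ((1 / (N : ℝ)) • A) *
      NormedSpace.exp ((1 / (N : ℝ)) • B)) ^ N) atTop (𝓝 (NormedSpace.exp (A + B))) := by
  let _ : NormedAlgebra ℚ 𝔸 := NormedAlgebra.restrictScalars ℚ ℝ 𝔸
  have hA : HasDerivAt (fun t : ℝ => NormedSpace.exp (t • A)) (A) 0 := by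
    have := hasDerivAt_exp_smul_const (𝕂 := ℝ) A 0
    simpa using this
  have hB : HasDerivAt (fun t : ℝ => NormedSpace.exp (t • B)) (B) 0 := by
    have := hasDerivAt_exp_smul_const (𝕂 := ℝ) B 0
    simpa using this
  have hAB : HasDerivAt (fun t : ℝ => NormedSpace.exp (t • (A + B))) (A + B) 0 := by
    have := hasDerivAt_exp_smul_const (𝕂 := ℝ) (A + B) 0
    simpa using this
  have hmul : HasDerivAt (fun t : ℝ => NormedSpace.exp (t • A) * NormedSpace.exp (t • B))
      (A + B) 0 := by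
    have := hA.mul hB
    simp only [zero_smul, NormedSpace.exp_zero, one_mul, mul_one] at this
    exact this
  have key := tendsto_pow_sub_pow _ _ _ hmul hAB (by simp) (by simp)
  have heq : ∀ᶠ N : ℕ in atTop, (NormedSpace.exp ((1 / (N : ℝ)) • (A + B))) ^ N
      = NormedSpace.exp (A + B) := by
    filter_upwards [eventually_ge_atTop 1] with N hN
    have hNpos : (N : ℝ) ≠ 0 := by
      have : (0 : ℝ) < N := by exact_mod_cast hN
      exact this.ne'
    rw [← NormedSpace.exp_nsmul]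
    congr 1
    rw [← Nat.cast_smul_eq_nsmul ℝ, smul_smul, mul_one_div_cancel hNpos, one_smul]
  have key2 := key.add_const (NormedSpace.exp (A + B))
  rw [zero_add] at key2
  refine key2.congr' ?_
  filter_upwards [heq] with N hN
  rw [hN]; abel

end Trotter

variable {d : Type} [Fintype d] [DecidableEq d]

/-- squared Hilbert–Schmidt norm -/
noncomputable def hs (X : Matrix d d ℂ) : ℝ := ∑ i, ∑ j, ‖X i j‖ ^ 2

omit [DecidableEq d] in
theorem hs_nonneg (X : Matrix d d ℂ) : 0 ≤ hs X := by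
  unfold hs; positivity

omit [DecidableEq d] in
theorem trace_mul_conjTranspose (X : Matrix d d ℂ) : trace (X * Xᴴ) = (hs X : ℂ) := by
  unfold hs
  simp only [trace, diag_apply, mul_apply, conjTranspose_apply]
  push_cast
  refine Finset.sum_congr rfl fun i _ => Finset.sum_congr rfl fun j _ => ?_
  rw [Complex.star_def, Complex.mul_conj, Complex.normSq_eq_norm_sq]
  push_cast; rfl

omit [DecidableEq d] in
theorem trace_conjTranspose_mul (X : Matrix d d ℂ) : trace (Xᴴ * X) = (hs X : ℂ) := by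
  rw [trace_mul_comm, trace_mul_conjTranspose]

omit [DecidableEq d] in
theorem norm_trace_mul_le (X Y : Matrix d d ℂ) :
    ‖trace (X * Y)‖ ≤ Real.sqrt (hs X) * Real.sqrt (hs Y) := by
  have h1 : ‖trace (X * Y)‖ ≤ ∑ p : d × d, ‖X p.1 p.2‖ * ‖Y p.2 p.1‖ := by
    simp only [trace, diag_apply, mul_apply]
    rw [Fintype.sum_prod_type]
    refine (norm_sum_le _ _).trans ?_
    refine Finset.sum_le_sum fun i _ => ?_
    refine (norm_sum_le _ _).trans ?_
    refine Finset.sum_le_sum fun j _ => ?_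
    rw [norm_mul]
  have h2 := Real.sum_mul_le_sqrt_mul_sqrt (Finset.univ : Finset (d × d))
    (fun p => ‖X p.1 p.2‖) (fun p => ‖Y p.2 p.1‖)
  refine h1.trans (h2.trans (le_of_eq ?_))
  unfold hs
  rw [Fintype.sum_prod_type, Fintype.sum_prod_type]
  rw [Finset.sum_comm (f := fun i j => ‖Y j i‖ ^ 2)]

theorem trace_mul_pow_comm (X Y : Matrix d d ℂ) (m : ℕ) :
    trace ((X * Y) ^ m) = trace ((Y * X) ^ m) := by
  cases m with
  | zero => simp
  | succ m =>
    have h : ∀ m, (X * Y) ^ (m + 1) = X * ((Y * X) ^ m * Y) := by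
      intro m
      induction m with
      | zero => simp
      | succ m ih =>
        rw [pow_succ, ih, pow_succ]
        simp only [Matrix.mul_assoc]
    rw [h, trace_mul_comm, pow_succ, Matrix.mul_assoc]

def RR (d : Type) [Fintype d] [DecidableEq d] (i : ℕ) : Prop :=
  ∀ C : Matrix d d ℂ, ‖trace (C ^ (2 * 2 ^ i))‖ ≤ (trace ((C * Cᴴ) ^ (2 ^ i))).re

def SS (d : Type) [Fintype d] [DecidableEq d] (i : ℕ) : Prop :=
  ∀ U V : Matrix d d ℂ, U.PosSemidef → V.PosSemidef →
    ‖trace ((U * V) ^ (2 ^ i))‖ ≤ (trace (U ^ (2 ^ i) * V ^ (2 ^ i))).re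

theorem RR_zero : RR d 0 := by
  intro C
  have h := norm_trace_mul_le C C
  rw [Real.mul_self_sqrt (hs_nonneg C)] at h
  simp only [pow_zero, mul_one, pow_one]
  rw [pow_two, trace_mul_conjTranspose, Complex.ofReal_re]
  exact h

theorem SS_zero : SS d 0 := by
  intro U V hU hV
  simp only [pow_zero, pow_one]
  obtain ⟨W, hW⟩ := CStarAlgebra.nonneg_iff_eq_star_mul_self.mp hV.nonneg
  rw [star_eq_conjTranspose] at hW
  subst hW
  have h : trace (U * (Wᴴ * W)) = trace (W * U * Wᴴ) := by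
    rw [← Matrix.mul_assoc, trace_mul_comm, Matrix.mul_assoc]
  have hps : (W * U * Wᴴ).PosSemidef := hU.mul_mul_conjTranspose_same W
  have hnn := hps.trace_nonneg
  rw [h]
  have := Complex.norm_of_nonneg' hnn
  rw [Complex.le_def] at hnn
  have him : (trace (W * U * Wᴴ)).im = 0 := by simpa using hnn.2.symm
  have hre : (0 : ℝ) ≤ (trace (W * U * Wᴴ)).re := by simpa using hnn.1
  have : trace (W * U * Wᴴ) = (((trace (W * U * Wᴴ)).re : ℝ) : ℂ) := by
    apply Complex.ext <;> simp [him]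
  rw [this, Complex.norm_real, Complex.ofReal_re, Real.norm_of_nonneg hre]

theorem SS_succ (i : ℕ) (hR : RR d i) (hS : SS d i) : SS d (i + 1) := by
  intro U V hU hV
  have hUh : Uᴴ = U := hU.isHermitian
  have hVh : Vᴴ = V := hV.isHermitian
  have h1 := hR (U * V)
  have h2 : (U * V) * (U * V)ᴴ = U * (V ^ 2 * U) := by
    rw [conjTranspose_mul, hUh, hVh, pow_two]; simp only [Matrix.mul_assoc]
  have h3 : trace (((U * V) * (U * V)ᴴ) ^ (2 ^ i)) = trace ((U ^ 2 * V ^ 2) ^ (2 ^ i)) := by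
    rw [h2, trace_mul_pow_comm, Matrix.mul_assoc, ← pow_two, trace_mul_pow_comm]
  have hU2 : (U ^ 2).PosSemidef := hU.pow 2
  have hV2 : (V ^ 2).PosSemidef := hV.pow 2
  have h4 := hS (U ^ 2) (V ^ 2) hU2 hV2
  rw [h3] at h1
  have h5 : (2 : ℕ) ^ (i + 1) = 2 * 2 ^ i := by ring
  rw [h5, pow_mul U, pow_mul V]
  exact h1.trans ((Complex.re_le_norm _).trans h4)

theorem RR_succ (i : ℕ) (hR : RR d i) (hS : SS d i) : RR d (i + 1) := by
  intro C
  have h5 : (2 : ℕ) * 2 ^ (i + 1) = 2 * (2 * 2 ^ i) := by ring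
  rw [h5, pow_mul C]
  have h1 := hR (C ^ 2)
  have h2 : trace ((C ^ 2 * (C ^ 2)ᴴ) ^ (2 ^ i)) = trace (((C * Cᴴ) * (Cᴴ * C)) ^ (2 ^ i)) := by
    have e1 : C ^ 2 * (C ^ 2)ᴴ = C * (C * (Cᴴ * Cᴴ)) := by
      rw [pow_two, conjTranspose_mul]; simp only [Matrix.mul_assoc]
    have e2 : (C * Cᴴ) * (Cᴴ * C) = (C * (Cᴴ * Cᴴ)) * C := by
      simp only [Matrix.mul_assoc]
    rw [e1, e2, trace_mul_pow_comm]
  have hP1 : (C * Cᴴ).PosSemidef := posSemidef_self_mul_conjTranspose C
  have hP2 : (Cᴴ * C).PosSemidef := posSemidef_conjTranspose_mul_self C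
  have h3 := hS _ _ hP1 hP2
  set X := (C * Cᴴ) ^ (2 ^ i) with hX
  set Y := (Cᴴ * C) ^ (2 ^ i) with hY
  have h4 : ‖trace (X * Y)‖ ≤ Real.sqrt (hs X) * Real.sqrt (hs Y) := norm_trace_mul_le X Y
  have hXX : (hs X : ℂ) = trace ((C * Cᴴ) ^ (2 ^ (i + 1))) := by
    rw [← trace_mul_conjTranspose, hX, conjTranspose_pow, hP1.isHermitian.eq, ← pow_add]
    congr 2; ring
  have hYY : (hs Y : ℂ) = trace ((C * Cᴴ) ^ (2 ^ (i + 1))) := by
    rw [← trace_mul_conjTranspose, hY, conjTranspose_pow, hP2.isHermitian.eq, ← pow_add,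
      trace_mul_pow_comm]
    congr 2; ring
  have hXr : hs X = (trace ((C * Cᴴ) ^ (2 ^ (i + 1)))).re := by rw [← hXX, Complex.ofReal_re]
  have hYr : hs Y = (trace ((C * Cᴴ) ^ (2 ^ (i + 1)))).re := by rw [← hYY, Complex.ofReal_re]
  have hxy : hs Y = hs X := by rw [hXr, hYr]
  rw [hxy, Real.mul_self_sqrt (hs_nonneg X), hXr] at h4
  rw [h2] at h1
  calc _ ≤ _ := h1
    _ ≤ _ := Complex.re_le_norm _
    _ ≤ _ := h3
    _ ≤ _ := Complex.re_le_norm _
    _ ≤ _ := h4

theorem RR_and_SS (i : ℕ) : RR d i ∧ SS d i := by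
  induction i with
  | zero => exact ⟨RR_zero, SS_zero⟩
  | succ i ih => exact ⟨RR_succ i ih.1 ih.2, SS_succ i ih.1 ih.2⟩

theorem posSemidef_exp {A : Matrix d d ℂ} (hA : A.IsHermitian) :
    (NormedSpace.exp A).PosSemidef := by
  set H : Matrix d d ℂ := ((1 / 2 : ℝ)) • A with hH
  have hHh : H.IsHermitian := by
    rw [hH]
    unfold Matrix.IsHermitian
    rw [conjTranspose_smul, hA.eq]; simp
  have h2 : A = 2 • H := by
    rw [hH, ← Nat.cast_smul_eq_nsmul ℝ, smul_smul]; norm_num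
  have h3 : NormedSpace.exp A = NormedSpace.exp H * NormedSpace.exp H := by
    conv_lhs => rw [h2]
    rw [Matrix.exp_nsmul, pow_two]
  have h4 : (NormedSpace.exp H)ᴴ = NormedSpace.exp H := hHh.exp.eq
  rw [h3]
  nth_rewrite 1 [← h4]
  exact posSemidef_conjTranspose_mul_self _

theorem golden_thompson {d : Type} [Fintype d] [DecidableEq d] {A B : Matrix d d ℂ}
    (hA : A.IsHermitian) (hB : B.IsHermitian) :
    (Matrix.trace (NormedSpace.exp (A + B))).re ≤
      (Matrix.trace (NormedSpace.exp A * NormedSpace.exp B)).re := by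
  rcases isEmpty_or_nonempty d with hd | hd
  · simp [Matrix.trace]
  -- the bound for powers of two
  have hbound : ∀ i : ℕ,
      (trace ((NormedSpace.exp ((1 / ((2 ^ i : ℕ) : ℝ)) • A) *
        NormedSpace.exp ((1 / ((2 ^ i : ℕ) : ℝ)) • B)) ^ (2 ^ i))).re ≤
      (trace (NormedSpace.exp A * NormedSpace.exp B)).re := by
    intro i
    have hA' : ((1 / ((2 ^ i : ℕ) : ℝ)) • A).IsHermitian := by
      unfold Matrix.IsHermitian
      rw [conjTranspose_smul, hA.eq]; simp
    have hB' : ((1 / ((2 ^ i : ℕ) : ℝ)) • B).IsHermitian := by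
      unfold Matrix.IsHermitian
      rw [conjTranspose_smul, hB.eq]; simp
    have h := (RR_and_SS (d := d) i).2 _ _ (posSemidef_exp hA') (posSemidef_exp hB')
    have hne : ((2 ^ i : ℕ) : ℝ) ≠ 0 := by positivity
    have eA : NormedSpace.exp ((1 / ((2 ^ i : ℕ) : ℝ)) • A) ^ (2 ^ i) = NormedSpace.exp A := by
      rw [← Matrix.exp_nsmul, ← Nat.cast_smul_eq_nsmul ℝ, smul_smul, mul_one_div_cancel hne,
        one_smul]
    have eB : NormedSpace.exp ((1 / ((2 ^ i : ℕ) : ℝ)) • B) ^ (2 ^ i) = NormedSpace.exp B := by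
      rw [← Matrix.exp_nsmul, ← Nat.cast_smul_eq_nsmul ℝ, smul_smul, mul_one_div_cancel hne,
        one_smul]
    rw [eA, eB] at h
    exact (Complex.re_le_norm _).trans h
  have hlim : Tendsto (fun N : ℕ => (NormedSpace.exp ((1 / (N : ℝ)) • A) *
      NormedSpace.exp ((1 / (N : ℝ)) • B)) ^ N) atTop (𝓝 (NormedSpace.exp (A + B))) := by
    let _ : NormedRing (Matrix d d ℂ) := Matrix.linftyOpNormedRing
    let _ : NormedAlgebra ℝ (Matrix d d ℂ) := Matrix.linftyOpNormedAlgebra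
    have _ : CompleteSpace (Matrix d d ℂ) := inferInstance
    exact tendsto_exp_mul_exp_pow A B
  have hsub : Tendsto (fun i : ℕ => 2 ^ i) atTop atTop :=
    tendsto_pow_atTop_atTop_of_one_lt (by norm_num)
  have hlim2 := hlim.comp hsub
  have hcont : Continuous (fun M : Matrix d d ℂ => (trace M).re) :=
    Complex.continuous_re.comp continuous_id.matrix_trace
  have hlim3 := (hcont.tendsto _).comp hlim2
  exact le_of_tendsto' hlim3 hbound

end Pool.Agent.Helper65.GoldenThompson
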