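import Mathlib
import Pool.Agent.Helper65.CompactSolv

open Topology Filter Set UniformSpace
open scoped Pointwise

namespace Pool.Agent.Helper65.MinimalCompletion

universe u

section Completion

variable {G : Type u} [Group G] [TopologicalSpace G] [IsTopologicalGroup G]

/-- A precompact group has small invariant neighbourhoods. -/
lemma exists_invariant (hpre : ∀ U ∈ 𝓝 (1 : G), ∃ F : Set G, F.Finite ∧ F * U = univ)
    {U : Set G} (hU : U ∈ 𝓝 (1 : G)) :
    ∃ V ∈ 𝓝 (1 : G), ∀ g : G, ∀ v ∈ V, g * v * g⁻¹ ∈ U := by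
  -- `W` with `w * v * w'⁻¹ ∈ U`
  have hcont : Continuous fun p : G × G × G => p.1 * p.2.1 * p.2.2⁻¹ := by fun_prop
  have h1 : (fun p : G × G × G => p.1 * p.2.1 * p.2.2⁻¹) ⁻¹' U ∈ 𝓝 ((1, 1, 1) : G × G × G) := by
    apply hcont.continuousAt.preimage_mem_nhds
    simpa using hU
  rw [nhds_prod_eq, nhds_prod_eq] at h1
  obtain ⟨A, hA, B, hB, hAB⟩ := Filter.mem_prod_iff.mp h1
  obtain ⟨B₁, hB₁, B₂, hB₂, hB₁₂⟩ := Filter.mem_prod_iff.mp hB
  let W : Set G := A ∩ B₁ ∩ B₂
  have hW : W ∈ 𝓝 (1 : G) := inter_mem (inter_mem hA hB₁) hB₂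
  have hWU : ∀ a ∈ W, ∀ b ∈ W, ∀ c ∈ W, a * b * c⁻¹ ∈ U := fun a ha b hb c hc =>
    hAB (show (a, b, c) ∈ A ×ˢ B from ⟨ha.1.1, hB₁₂ ⟨hb.1.2, hc.2⟩⟩)
  have hWinv : W⁻¹ ∈ 𝓝 (1 : G) := inv_mem_nhds_one G hW
  obtain ⟨F, hF, hFW⟩ := hpre W⁻¹ hWinv
  refine ⟨⋂ f ∈ F, {v | f⁻¹ * v * f ∈ W}, ?_, ?_⟩
  · rw [Filter.biInter_mem hF]
    intro f _
    have hc : Continuous fun v : G => f⁻¹ * v * f := by fun_prop
    apply hc.continuousAt.preimage_mem_nhds
    simpa using hW
  · intro g v hv
    have hg : g⁻¹ ∈ F * W⁻¹ := by rw [hFW]; trivial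
    obtain ⟨f, hf, w, hw, hfw⟩ := hg
    have hg' : g = w⁻¹ * f⁻¹ := by
      rw [← mul_inv_rev]
      rw [← inv_inv g, ← hfw]
    have hw' : w⁻¹ ∈ W := hw
    have hv' : f⁻¹ * v * f ∈ W := mem_iInter₂.mp hv f hf
    have h2 := hWU _ hw' _ hv' _ hw'
    have h3 : g * v * g⁻¹ = w⁻¹ * (f⁻¹ * v * f) * (w⁻¹)⁻¹ := by
      rw [hg']
      group
    rw [h3]
    exact h2

/-- For a precompact group the right uniformity makes it a uniform group. -/
lemma isUniformGroup (hpre : ∀ U ∈ 𝓝 (1 : G), ∃ F : Set G, F.Finite ∧ F * U = univ) :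
    @IsUniformGroup G (IsTopologicalGroup.rightUniformSpace G) _ := by
  let _ : UniformSpace G := IsTopologicalGroup.rightUniformSpace G
  have hR : IsRightUniformGroup G := ⟨rfl⟩
  have hL : IsLeftUniformGroup G := ⟨by
    have h0 : uniformity G = Filter.comap (fun x : G × G => x.2 * x.1⁻¹) (𝓝 1) := rfl
    rw [h0]
    apply le_antisymm
    · rw [← Filter.map_le_iff_le_comap]
      intro U hU
      obtain ⟨V, hV, hVU⟩ := exists_invariant hpre hU
      rw [Filter.mem_map]
      refine ⟨V, hV, ?_⟩
      rintro ⟨x, y⟩ hxy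
      have h1 := hVU x⁻¹ _ hxy
      have h2 : x⁻¹ * (y * x⁻¹) * x⁻¹⁻¹ = x⁻¹ * y := by group
      rw [h2] at h1
      exact h1
    · rw [← Filter.map_le_iff_le_comap]
      intro U hU
      obtain ⟨V, hV, hVU⟩ := exists_invariant hpre hU
      rw [Filter.mem_map]
      refine ⟨V, hV, ?_⟩
      rintro ⟨x, y⟩ hxy
      have h1 := hVU x _ hxy
      have h2 : x * (x⁻¹ * y) * x⁻¹ = y * x⁻¹ := by group
      rw [h2] at h1
      exact h1⟩
  exact IsUniformGroup.of_left_right

/-- Completion of a precompact Hausdorff group. -/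
theorem exists_completion [T2Space G]
    (hpre : ∀ U ∈ 𝓝 (1 : G), ∃ F : Set G, F.Finite ∧ F * U = univ) :
    ∃ (K : Type u) (_ : Group K) (_ : TopologicalSpace K) (_ : IsTopologicalGroup K)
      (_ : CompactSpace K) (_ : T2Space K) (ι : G →* K), IsDenseInducing ι ∧ Function.Injective ι := by
  let _ : UniformSpace G := IsTopologicalGroup.rightUniformSpace G
  have hG : IsUniformGroup G := isUniformGroup hpre
  have hadd : IsUniformAddGroup (Additive G) := ⟨uniformContinuous_div (α := G)⟩
  have htb : TotallyBounded (univ : Set (Additive G)) := by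
    intro d hd
    have h0 : uniformity (Additive G) = Filter.comap (fun x : G × G => x.2 * x.1⁻¹) (𝓝 1) := rfl
    rw [h0] at hd
    obtain ⟨U, hU, hUd⟩ := hd
    obtain ⟨F, hF, hFU⟩ := hpre U hU
    refine ⟨(fun f : G => Additive.ofMul f⁻¹) '' F, hF.image _, ?_⟩
    intro x _
    have hx : (x.toMul)⁻¹ ∈ F * U := by rw [hFU]; trivial
    obtain ⟨f, hf, v, hv, hfv⟩ := hx
    refine mem_biUnion ⟨f, hf, rfl⟩ ?_
    apply hUd
    change f⁻¹ * (x.toMul)⁻¹ ∈ U
    rw [← hfv]
    simpa using hv
  have hcomp : CompactSpace (Completion (Additive G)) := by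
    refine ⟨isCompact_iff_totallyBounded_isComplete.mpr ⟨?_, isComplete_univ⟩⟩
    have h1 := (htb.image (Completion.uniformContinuous_coe (Additive G))).closure
    rw [image_univ, (Completion.denseRange_coe (α := Additive G)).closure_range] at h1
    exact h1
  have hadd2 : T2Space (Multiplicative (Completion (Additive G))) :=
    inferInstanceAs (T2Space (Completion (Additive G)))
  let ι : G →* Multiplicative (Completion (Additive G)) :=
    { toFun := fun g => Multiplicative.ofAdd ((Additive.ofMul g : Additive G) : Completion (Additive G))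
      map_one' := rfl
      map_mul' := fun a b => by
        exact congrArg Multiplicative.ofAdd
          (Completion.coe_add (Additive.ofMul a : Additive G) (Additive.ofMul b)) }
  have hT0 : T0Space (Additive G) := by
    have h : T0Space G := inferInstance
    exact h
  have hinj : Function.Injective (Completion.coe' : Additive G → Completion (Additive G)) :=
    Completion.coe_injective _
  refine ⟨Multiplicative (Completion (Additive G)), inferInstance, inferInstance, inferInstance,
    inferInstance, hadd2, ι, ?_, ?_⟩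
  · exact (Completion.isDenseInducing_coe (α := Additive G))
  · intro a b hab
    exact hinj hab

end Completion

/-- In the compact completion, a minimal group meets every nontrivial closed normal subgroup. -/
lemma essential {G K : Type u} [Group G] [t : TopologicalSpace G] [IsTopologicalGroup G]
    [Group K] [TopologicalSpace K] [IsTopologicalGroup K] [T2Space K]
    (hmin : ∀ t' : TopologicalSpace G, @IsTopologicalGroup G t' _ → @T2Space G t' → ¬ t < t')
    (ι : G →* K) (hι : IsDenseInducing ι) (hinj : Function.Injective ι)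
    (N : Subgroup K) (hN : N.Normal) (hNc : IsClosed (N : Set K)) (hNb : N ≠ ⊥) :
    ∃ g ∈ ι.range, g ∈ N ∧ g ≠ 1 := by
  by_contra hcon
  push Not at hcon
  apply hNb
  have hT3 : T3Space (K ⧸ N) := inferInstance
  let q : G →* K ⧸ N := (QuotientGroup.mk' N).comp ι
  have hqc : Continuous q := (QuotientGroup.continuous_mk (N := N)).comp hι.continuous
  have hqinj : Function.Injective q := by
    rw [injective_iff_map_eq_one]
    intro g hg
    have h1 : ι g ∈ N := (QuotientGroup.eq_one_iff _).mp hg
    have h2 : ι g = 1 := hcon (ι g) ⟨g, rfl⟩ h1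
    exact hinj (by rw [h2, map_one])
  have htg : @IsTopologicalGroup G (TopologicalSpace.induced q inferInstance) _ :=
    topologicalGroup_induced q
  have ht2 : @T2Space G (TopologicalSpace.induced q inferInstance) := by
    let _ : TopologicalSpace G := TopologicalSpace.induced q inferInstance
    exact T2Space.of_injective_continuous hqinj continuous_induced_dom
  have hle : t ≤ TopologicalSpace.induced q inferInstance := continuous_iff_le_induced.mp hqc
  have heq : t = TopologicalSpace.induced q inferInstance := by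
    by_contra hne
    exact hmin _ htg ht2 (lt_of_le_of_ne hle hne)
  rw [eq_bot_iff]
  intro n hn
  rw [Subgroup.mem_bot]
  have hne : (Filter.comap ι (𝓝 n)).NeBot := hι.comap_nhds_neBot n
  have h1 : Tendsto ι (Filter.comap ι (𝓝 n)) (𝓝 n) := tendsto_comap
  have h2 : Tendsto q (Filter.comap ι (𝓝 n)) (𝓝 (1 : K ⧸ N)) := by
    have h3 : ((n : K) : K ⧸ N) = 1 := (QuotientGroup.eq_one_iff n).mpr hn
    rw [← h3]
    exact (QuotientGroup.continuous_mk (N := N)).continuousAt.tendsto.comp h1
  have h4 : Filter.comap ι (𝓝 n) ≤ 𝓝 (1 : G) := by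
    have hind : IsInducing q := ⟨heq⟩
    have h5 : (𝓝 (1 : G)) = Filter.comap q (𝓝 (q 1)) := hind.nhds_eq_comap 1
    rw [h5, map_one]
    exact Filter.map_le_iff_le_comap.mp h2
  have h6 : Tendsto ι (Filter.comap ι (𝓝 n)) (𝓝 (1 : K)) := by
    have := (hι.continuous.tendsto (1 : G)).mono_left h4
    rwa [map_one] at this
  exact tendsto_nhds_unique h1 h6

/-- The derived series of the completion is in the closure of the derived series. -/
lemma derivedSeries_le {G K : Type u} [Group G] [Group K] [TopologicalSpace K] [IsTopologicalGroup K]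
    (ι : G →* K) (hι : DenseRange ι) (n : ℕ) :
    derivedSeries K n ≤ ((derivedSeries G n).map ι).topologicalClosure := by
  induction n with
  | zero =>
    intro x _
    have h1 : ((derivedSeries G 0).map ι : Set K) = range ι := by
      simp
    change x ∈ closure ((derivedSeries G 0).map ι : Set K)
    rw [h1]
    exact hι x
  | succ n ih =>
    rw [derivedSeries_succ, Subgroup.commutator_le]
    intro a ha b hb
    have hcont : Continuous (Function.uncurry fun a b : K => a * b * a⁻¹ * b⁻¹) := by
      simp only [Function.uncurry_def]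
      fun_prop
    refine map_mem_closure₂ (f := fun a b : K => a * b * a⁻¹ * b⁻¹) hcont (ih ha) (ih hb) ?_
    rintro _ ⟨x, hx, rfl⟩ _ ⟨y, hy, rfl⟩
    refine ⟨x * y * x⁻¹ * y⁻¹, ?_, by simp⟩
    exact Subgroup.commutator_mem_commutator hx hy

/-- Extraction of an injective convergent sequence. -/
lemma exists_injective {G : Type u} [Group G] [TopologicalSpace G] [T2Space G] {h : ℕ → G}
    (h1 : ∀ n, h n ≠ 1) (hlim : Tendsto h atTop (𝓝 1)) :
    ∃ x : ℕ → G, Function.Injective x ∧ Tendsto x atTop (𝓝 1) := by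
  have hinf : (range h).Infinite := by
    intro hfin
    have hopen : (range h)ᶜ ∈ 𝓝 (1 : G) := hfin.isClosed.isOpen_compl.mem_nhds (by
      rintro ⟨n, hn⟩
      exact h1 n hn)
    obtain ⟨n, hn⟩ := (hlim.eventually hopen).exists
    exact hn ⟨n, rfl⟩
  let e : ℕ ↪ range h := hinf.natEmbedding
  choose m hm using fun k => (e k).2
  have hminj : Function.Injective m := by
    intro i j hij
    apply e.injective
    apply Subtype.ext
    rw [← hm i, ← hm j, hij]
  refine ⟨fun k => h (m k), ?_, hlim.comp hminj.nat_tendsto_atTop⟩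
  intro i j hij
  apply e.injective
  apply Subtype.ext
  rw [← hm i, ← hm j]
  exact hij

/-- Every infinite minimal precompact solvable group contains a nontrivial convergent sequence. -/
theorem exists_sequence (G : Type u) [Group G] [t : TopologicalSpace G] [IsTopologicalGroup G]
    [T2Space G] [Infinite G] [Group.IsSolvable G]
    (hmin : ∀ t' : TopologicalSpace G, @IsTopologicalGroup G t' _ → @T2Space G t' → ¬ t < t')
    (hpre : ∀ U ∈ 𝓝 (1 : G), ∃ F : Set G, F.Finite ∧ F * U = univ) :
    ∃ (x : ℕ → G) (a : G), Function.Injective x ∧ Tendsto x atTop (𝓝 a) := by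
  obtain ⟨K, _, _, _, _, _, ι, hι, hinj⟩ := exists_completion hpre
  have hess := essential hmin ι hι hinj
  have hKinf : Infinite K := Infinite.of_injective ι hinj
  obtain ⟨d, hd⟩ := (Group.isSolvable_def G).mp inferInstance
  let C : ℕ → Subgroup K := fun n => (derivedSeries K n).topologicalClosure
  have hCd : C d = ⊥ := by
    have h1 := derivedSeries_le ι hι.dense d
    rw [hd, Subgroup.map_bot] at h1
    rw [eq_bot_iff]
    refine (Subgroup.topologicalClosure_minimal _ h1 (Subgroup.isClosed_topologicalClosure _)).trans ?_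
    exact Subgroup.topologicalClosure_minimal _ le_rfl (by simp)
  obtain ⟨A, hAn, hAc, hAcomm, hAinf⟩ := Pool.Agent.Helper65.CompactSolv.exists_abelian C
    (fun n => Subgroup.is_normal_topologicalClosure _) (fun n => Subgroup.isClosed_topologicalClosure _)
    (by
      rw [eq_top_iff]
      exact (derivedSeries_zero K).ge.trans (Subgroup.le_topologicalClosure _)) d hCd (by
      intro n a ha b hb
      have hcont : Continuous (Function.uncurry fun a b : K => a * b * a⁻¹ * b⁻¹) := by
        simp only [Function.uncurry_def]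
        fun_prop
      have h2 : (fun a b : K => a * b * a⁻¹ * b⁻¹) a b ∈
          closure ((derivedSeries K (n + 1) : Subgroup K) : Set K) :=
        map_mem_closure₂ (f := fun a b : K => a * b * a⁻¹ * b⁻¹) hcont ha hb
          (fun x hx y hy => Subgroup.commutator_mem_commutator hx hy)
      exact h2)
  obtain ⟨g, hg, hlim⟩ := Pool.Agent.Helper65.CompactSolv.exists_null_of_abelian ι.range hess A hAn hAc
    hAcomm hAinf
  choose h hh using fun n => (hg n).1
  have hh1 : ∀ n, h n ≠ 1 := by
    intro n hn
    apply (hg n).2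
    rw [← hh n, hn, map_one]
  have hlim' : Tendsto h atTop (𝓝 1) := by
    rw [hι.toIsInducing.tendsto_nhds_iff, map_one]
    refine hlim.congr fun n => (hh n).symm
  obtain ⟨x, hx, hxlim⟩ := exists_injective hh1 hlim'
  exact ⟨x, 1, hx, hxlim⟩

end Pool.Agent.Helper65.MinimalCompletion
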